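import Mathlib

/-!
# Project MZ (helper5): certificates for the septic field

`θ^7 - 8 θ^5 - 2 θ^4 + 16 θ^3 + 6 θ^2 - 6 θ - 2 = 0`.  Polynomials are lists of integer coefficients (constant term first).
-/

set_option autoImplicit false

namespace Pool.Agent.Q5.MZ

def addL : List ℤ → List ℤ → List ℤ
  | [], b => b
  | a, [] => a
  | x :: a, y :: b => (x + y) :: addL a b

def smulL (c : ℤ) (a : List ℤ) : List ℤ := a.map (fun x => c * x)

def mulL : List ℤ → List ℤ → List ℤ
  | [], _ => []
  | x :: a, b => addL (smulL x b) (0 :: mulL a b)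

/-- value of the polynomial at `t` -/
def evL {R : Type} [CommRing R] (t : R) : List ℤ → R
  | [] => 0
  | x :: a => (x : R) + t * evL t a

theorem evL_add {R : Type} [CommRing R] (t : R) (a b : List ℤ) : evL t (addL a b) = evL t a + evL t b := by
  induction a generalizing b with
  | nil => simp [addL, evL]
  | cons x a ih =>
    cases b with
    | nil => simp [addL, evL]
    | cons y b => simp only [addL, evL, ih]; push_cast; ring

theorem evL_smul {R : Type} [CommRing R] (t : R) (c : ℤ) (a : List ℤ) : evL t (smulL c a) = (c : R) * evL t a := by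
  induction a with
  | nil => simp [smulL, evL]
  | cons x a ih =>
    have h : smulL c (x :: a) = (c * x) :: smulL c a := rfl
    rw [h, evL, ih, evL]; push_cast; ring

theorem evL_mul {R : Type} [CommRing R] (t : R) (a b : List ℤ) : evL t (mulL a b) = evL t a * evL t b := by
  induction a with
  | nil => simp [mulL, evL]
  | cons x a ih =>
    rw [mulL, evL_add, evL_smul, evL, ih, evL]; push_cast; ring

/-- all entries vanish -/
def zeroL (a : List ℤ) : Bool := a.all (fun x => x == 0)

theorem evL_zero {R : Type} [CommRing R] (t : R) (a : List ℤ) (h : zeroL a = true) : evL t a = 0 := by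
  induction a with
  | nil => rfl
  | cons x a ih =>
    rw [zeroL, List.all_cons, Bool.and_eq_true] at h
    have hx : x = 0 := by simpa using h.1
    rw [evL, ih h.2, hx]; simp

/-- the polynomial `x^7 - 8 x^5 - 2 x^4 + 16 x^3 + 6 x^2 - 6 x - 2` -/
def fL : List ℤ := [-2, -6, 6, 16, -2, -8, 0, 1]

/-- a certificate for the prime `(p, m(θ))`: `α β = 2^i p` and `α γ = 2^i m(θ)`, `α = s m(θ) + p t` -/
structure Crt where
  p : ℕ
  m : List ℤ
  i : ℕ
  al : List ℤ
  be : List ℤ
  q1 : List ℤ
  ga : List ℤ
  q2 : List ℤ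
  s : List ℤ
  t : List ℤ

def Crt.check (c : Crt) : Bool :=
  zeroL (addL (mulL c.al c.be) (smulL (-1) (addL [2 ^ c.i * (c.p : ℤ)] (mulL c.q1 fL)))) &&
  zeroL (addL (mulL c.al c.ga) (smulL (-1) (addL (smulL (2 ^ c.i) c.m) (mulL c.q2 fL)))) &&
  zeroL (addL c.al (smulL (-1) (addL (mulL c.s c.m) (smulL (c.p : ℤ) c.t))))

/-- the certificates for the primes `(p, θ - r)`, `2 < p < 261` -/
def crtN : List Crt := [
  { p := 5, m := [-1, 1], i := 0,
    al := [-1, 0, 1, 0, 0, 0, 0], be := [-1, 6, -31, -8, 21, 2, -3], q1 := [2, -3],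
    ga := [-1, -5, 11, 5, -7, -1, 1], q2 := [-1, 1], s := [1, 1, 0, 0, 0, 0], t := [0] },
  { p := 11, m := [-2, 1], i := 0,
    al := [3, 2, -11, -4, 7, 1, -1], be := [5, -32, -75, 16, 46, -1, -6], q1 := [-2, 49, 19, -41, -5, 6],
    ga := [-2, 3, 14, -1, -8, 0, 1], q2 := [2, -8, -5, 7, 1, -1], s := [4, 1, 6, 5, -1, -1], t := [1] },
  { p := 13, m := [-10, 1], i := 0,
    al := [-1, 2, 4, 0, -1, 0, 0], be := [-25, -32, 90, 118, -99, -28, 18], q1 := [-6, 27, 28, -18],
    ga := [22, 31, -80, -106, 88, 25, -16], q2 := [6, -24, -25, 16], s := [-958, -96, -10, -1, 0, 0], t := [-737] },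
  { p := 19, m := [-7, 1], i := 0,
    al := [-5, -1, 13, 4, -7, -1, 1], be := [21, -29, -382, -19, 230, 11, -31], q1 := [62, -248, -176, 188, 42, -31],
    ga := [-11, 2, 149, 13, -89, -5, 12], q2 := [-31, 93, 73, -72, -17, 12], s := [12291, 1756, 249, 35, 6, 1], t := [4528] },
  { p := 23, m := [-7, 1], i := 0,
    al := [-7, -14, 27, 11, -15, -2, 2], be := [-95, -16, 263, 55, -166, -16, 24], q1 := [-321, 242, 402, -276, -80, 48],
    ga := [31, 7, -87, -22, 55, 6, -8], q2 := [105, -73, -140, 90, 28, -16], s := [24381, 3485, 494, 69, 12, 2], t := [7420] },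
  { p := 29, m := [-10, 1], i := 0,
    al := [1, 3, -1, -6, 0, 1, 0], be := [249, -43, -528, -9, 251, 9, -31], q1 := [-110, -22, 189, 9, -31],
    ga := [-88, 17, 187, 2, -89, -3, 11], q2 := [39, 7, -67, -3, 11], s := [9393, 939, 94, 10, 1, 0], t := [3239] },
  { p := 31, m := [-27, 1], i := 0,
    al := [3, 4, -26, -4, 15, 1, -2], be := [-67, -6, 156, 32, -75, -9, 10], q1 := [116, -205, -130, 131, 28, -20],
    ga := [59, 5, -138, -28, 67, 8, -9], q2 := [-102, 181, 115, -117, -25, 18], s := [-27874742, -1032398, -38236, -1416, -53, -2], t := [-24278001] },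
  { p := 37, m := [-29, 1], i := 0,
    al := [-1, -6, -7, 5, 2, -1, 0], be := [733, -108, -1871, -57, 939, 35, -120], q1 := [385, 990, -509, -275, 120],
    ga := [-581, 85, 1483, 46, -744, -28, 95], q2 := [-305, -785, 403, 218, -95], s := [-654507, -22569, -778, -27, -1, 0], t := [-512992] },
  { p := 41, m := [-4, 1], i := 0,
    al := [5, 6, -38, -8, 22, 2, -3], be := [-207, 14, 522, 44, -278, -16, 37], q1 := [538, -1028, -582, 728, 122, -111],
    ga := [22, -1, -56, -6, 30, 2, -4], q2 := [-57, 108, 66, -78, -14, 12], s := [-1426, -358, -80, -18, -10, -3], t := [-139] },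
  { p := 47, m := [-19, 1], i := 0,
    al := [-3, 2, 8, -2, -7, 0, 1], be := [-5689, -25584, -21506, 13276, 14349, -1254, -1899], q1 := [-8510, -7157, 12022, 12450, -1254, -1899],
    ga := [2219, 9979, 8392, -5178, -5599, 489, 741], q2 := [3319, 2793, -4689, -4858, 489, 741], s := [2427518, 127764, 6724, 354, 19, 1], t := [981337] },
  { p := 53, m := [-32, 1], i := 0,
    al := [1, 5, -3, -2, 1, 0, 0], be := [-65, 63, 192, -57, -138, 4, 20], q1 := [59, -46, -36, 20],
    ga := [40, -37, -117, 32, 83, -2, -12], q2 := [-36, 27, 22, -12], s := [30629, 957, 30, 1, 0, 0], t := [18493] },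
  { p := 59, m := [-56, 1], i := 0,
    al := [-13, 10, 22, -3, -9, 0, 1], be := [273, 728, -1042, -1581, 977, 550, -262], q1 := [1804, -2045, -1869, 1239, 550, -262],
    ga := [-268, -713, 1028, 1554, -963, -541, 258], q2 := [-1770, 2016, 1837, -1221, -541, 258], s := [549143066, 9806126, 175109, 3127, 56, 1], t := [521220537] },
  { p := 61, m := [-14, 1], i := 0,
    al := [3, 8, -13, -18, 11, 4, -2], be := [-597, -374, 1407, 332, -704, -68, 91], q1 := [926, 171, -2230, 681, 500, -182],
    ga := [140, 85, -338, -77, 170, 16, -22], q2 := [-217, -36, 534, -166, -120, 44], s := [-895502, -63965, -4568, -325, -24, -2], t := [-205525] },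
  { p := 67, m := [-40, 1], i := 0,
    al := [-3, -5, 13, 5, -7, -1, 1], be := [-267, -69, 476, 24, -186, -4, 20], q1 := [-367, 330, 186, -162, -24, 20],
    ga := [160, 39, -287, -12, 112, 2, -12], q2 := [220, -201, -110, 98, 14, -12], s := [99400515, 2485013, 62125, 1553, 39, 1], t := [59343591] },
  { p := 71, m := [-42, 1], i := 1,
    al := [2, 1, -24, -4, 15, 1, -2], be := [-478, -306, 950, 868, 16, -140, -27], q1 := [549, -1102, -1580, -145, 253, 54],
    ga := [282, 172, -564, -494, 2, 80, 14], q2 := [-324, 660, 910, 62, -146, -28], s := [-257167511, -6123036, -145786, -3471, -83, -2], t := [-152127260] },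
  { p := 73, m := [-29, 1], i := 0,
    al := [3, 4, -20, 2, 14, 0, -2], be := [-925, -2092, -708, 1158, 658, -128, -90], q1 := [1424, 716, -1880, -1136, 256, 180],
    ga := [365, 811, 260, -450, -248, 50, 34], q2 := [-562, -260, 732, 428, -100, -68], s := [-40679746, -1402750, -48370, -1668, -58, -2], t := [-16160447] },
  { p := 73, m := [-45, 1], i := 0,
    al := [-15, 2, 44, 2, -23, -1, 3], be := [-39, -40, 254, 110, -215, -31, 35], q1 := [-256, 507, 514, -579, -128, 105],
    ga := [25, 27, -160, -72, 135, 20, -22], q2 := [165, -317, -331, 363, 82, -66], s := [547393907, 12164309, 270317, 6007, 134, 3], t := [337434600] },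
  { p := 73, m := [-67, 1], i := 0,
    al := [-9, 1, 20, 0, -9, 0, 1], be := [121, 209, -775, -267, 494, 61, -71], q1 := [581, -863, -470, 565, 61, -71],
    ga := [-113, -196, 720, 250, -459, -57, 66], q2 := [-542, 801, 439, -525, -57, 66], s := [1347419581, 20110740, 300160, 4480, 67, 1], t := [1236672766] },
  { p := 79, m := [-39, 1], i := 0,
    al := [-9, 3, 26, 1, -14, -1, 2], be := [1169, 2117, -6003, -1928, 3445, 393, -470], q1 := [5300, -8127, -5105, 5557, 1256, -940],
    ga := [-589, -1066, 3026, 971, -1737, -198, 237], q2 := [-2670, 4097, 2572, -2802, -633, 474], s := [177307029, 4546334, 116572, 2989, 77, 2], t := [87531318] },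
  { p := 89, m := [-18, 1], i := 0,
    al := [1, 0, 0, -4, 0, 1, 0], be := [-323, -1872, -1716, 946, 1114, -83, -148], q1 := [206, 318, 522, -83, -148],
    ga := [62, 365, 336, -184, -218, 16, 29], q2 := [-40, -62, -102, 16, 29], s := [103680, 5760, 320, 18, 1, 0], t := [20969] },
  { p := 101, m := [-46, 1], i := 1,
    al := [2, 3, 5, 1, -5, -1, 1], be := [24, -270, 392, 282, -308, -60, 47], q1 := [77, 3, 175, -107, -107, 47],
    ga := [-10, 126, -184, -132, 144, 28, -22], q2 := [-36, -2, -82, 50, 50, -22], s := [201001189, 4369591, 94991, 2065, 45, 1], t := [91545096] },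
  { p := 107, m := [-4, 1], i := 0,
    al := [-5, -12, 24, 10, -14, -2, 2], be := [193, 12, -576, -190, 306, 46, -42], q1 := [536, -420, -816, 436, 176, -84],
    ga := [-8, -1, 24, 8, -14, -2, 2], q2 := [-22, 16, 36, -20, -8, 4], s := [884, 224, 50, 10, 6, 2], t := [33] },
  { p := 109, m := [-8, 1], i := 0,
    al := [-1, -2, 12, 4, -7, -1, 1], be := [187, -56, -350, 68, 141, -11, -15], q1 := [148, -285, -54, 137, 4, -15],
    ga := [-14, 5, 26, -6, -10, 1, 1], q2 := [-11, 22, 3, -10, 0, 1], s := [25438, 3180, 396, 49, 7, 1], t := [1867] },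
  { p := 113, m := [-20, 1], i := 0,
    al := [-7, -13, 36, 14, -21, -3, 3], be := [1665, 417, -3217, -435, 1502, 102, -187], q1 := [5884, -5370, -4757, 3639, 867, -561],
    ga := [-298, -69, 583, 75, -273, -18, 34], q2 := [-1053, 981, 854, -663, -156, 102], s := [8958307, 447916, 22394, 1119, 57, 3], t := [1585541] },
  { p := 127, m := [-33, 1], i := 0,
    al := [-11, -21, 57, 23, -35, -5, 5], be := [-207, -3225, -3864, 1562, 2338, -126, -304], q1 := [-1075, -16686, -2382, 10800, 890, -1520],
    ga := [49, 822, 993, -398, -600, 32, 78], q2 := [253, 4277, 624, -2770, -230, 390], s := [188516472, 5712621, 173108, 5245, 160, 5], t := [48984595] },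
  { p := 131, m := [-6, 1], i := 0,
    al := [1, 2, -3, -3, 5, 1, -1], be := [677, -236, -1197, 83, 538, 3, -65], q1 := [-273, 260, 251, -340, -68, 65],
    ga := [-32, 13, 56, -5, -25, 0, 3], q2 := [13, -13, -11, 16, 3, -3], s := [-5524, -921, -153, -25, -5, -1], t := [-253] },
  { p := 151, m := [-82, 1], i := 0,
    al := [-3, -4, 9, 9, -6, -2, 1], be := [85, 210, -1663, -297, 1015, 78, -139], q1 := [203, -124, -1476, 581, 356, -139],
    ga := [-48, -119, 910, 165, -555, -43, 76], q2 := [-113, 65, 809, -317, -195, 76], s := [3613727122, 44069843, 537437, 6554, 80, 1], t := [1962421351] },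
  { p := 157, m := [-45, 1], i := 0,
    al := [1, 3, -6, -6, 1, 1, 0], be := [-511, 71, 931, -71, -380, 6, 42], q1 := [334, -271, -290, 48, 42],
    ga := [147, -22, -268, 22, 109, -2, -12], q2 := [-96, 79, 83, -14, -12], s := [4179333, 92874, 2064, 46, 1, 0], t := [1197898] },
  { p := 167, m := [-6, 1], i := 1,
    al := [2, -3, -4, 6, 1, -1, 0], be := [1578, 5498, 2250, -3064, -1716, 348, 225], q1 := [-1411, 1102, 1614, -123, -225],
    ga := [-54, -180, -56, 102, 46, -12, -6], q2 := [48, -44, -46, 6, 6], s := [-891, -148, -24, -5, -1, 0], t := [-32] },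
  { p := 167, m := [-23, 1], i := 0,
    al := [-1, -7, 9, 13, -11, -3, 2], be := [-197, -1057, -152, 640, 114, -86, -11], q1 := [-15, -1173, 585, 431, -139, -22],
    ga := [27, 144, 15, -88, -12, 12, 1], q2 := [2, 161, -87, -55, 21, 2], s := [11906403, 517670, 22507, 978, 43, 2], t := [1639804] },
  { p := 167, m := [-53, 1], i := 0,
    al := [3, -5, 10, 5, -7, -1, 1], be := [-39, -165, 325, 378, -306, -83, 52], q1 := [142, -276, 549, -171, -135, 52],
    ga := [13, 54, -106, -123, 100, 27, -17], q2 := [-46, 90, -179, 56, 44, -17], s := [409277443, 7722216, 145702, 2749, 52, 1], t := [129890446] },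
  { p := 167, m := [-58, 1], i := 0,
    al := [-3, 4, 9, -7, -7, 1, 1], be := [-271, -118, 2003, 259, -1162, -79, 157], q1 := [-323, 1334, -511, -1084, 78, 157],
    ga := [96, 45, -702, -93, 407, 28, -55], q2 := [115, -469, 177, 380, -27, -55], s := [666284458, 11487663, 198063, 3415, 59, 1], t := [231404183] },
  { p := 167, m := [-71, 1], i := 0,
    al := [-13, 17, 12, -8, -2, 1, 0], be := [-47, -17, 463, 359, -383, -144, 85], q1 := [-222, 955, -95, -314, 85],
    ga := [21, 10, -200, -158, 166, 63, -37], q2 := [101, -416, 40, 137, -37], s := [24656400, 347273, 4891, 69, 1, 0], t := [10482661] },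
  { p := 167, m := [-137, 1], i := 0,
    al := [7, 0, -20, -7, 13, 2, -2], be := [-23, -174, 8, 39, -41, 4, 11], q1 := [164, 117, -117, 57, 14, -22],
    ga := [19, 143, -8, -33, 34, -3, -9], q2 := [-135, -95, 98, -47, -12, 18], s := [-95785604726, -699164998, -5103394, -37251, -272, -2], t := [-78578609865] },
  { p := 167, m := [-153, 1], i := 0,
    al := [33, -12, -81, 2, 40, 1, -5], be := [-129, -342, 483, 580, -409, -117, 68], q1 := [2212, -1767, -3309, 1928, 653, -340],
    ga := [119, 315, -447, -535, 379, 108, -63], q2 := [-2040, 1637, 3054, -1787, -603, 315], s := [-418514401191, -2735388243, -17878354, -116852, -764, -5], t := [-383429361570] },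
  { p := 179, m := [-119, 1], i := 0,
    al := [-13, 2, 22, -1, -9, 0, 1], be := [1, 0, -182, 1, 177, 10, -30], q1 := [96, -289, -39, 207, 10, -30],
    ga := [-1, -1, 122, 1, -118, -7, 20], q2 := [-66, 193, 28, -138, -7, 20], s := [23848358627, 200406375, 1684087, 14152, 119, 1], t := [15854495400] },
  { p := 181, m := [-50, 1], i := 0,
    al := [1, -5, -9, 2, 6, 0, -1], be := [-93, -451, 708, 331, -271, -48, 28], q1 := [137, -418, -235, 215, 48, -28],
    ga := [26, 125, -199, -90, 77, 13, -8], q2 := [-38, 117, 64, -61, -13, 8], s := [-311745455, -6234909, -124698, -2494, -50, -1], t := [-86117529] },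
  { p := 191, m := [-115, 1], i := 0,
    al := [-15, 5, 31, -6, -11, 1, 1], be := [219, 345, -1418, -331, 824, 71, -109], q1 := [1738, -3174, -156, 1222, -38, -109],
    ga := [-133, -210, 859, 201, -499, -43, 66], q2 := [-1055, 1923, 95, -740, 23, 66], s := [20271667095, 176275366, 1532829, 13329, 116, 1], t := [12205454010] },
  { p := 193, m := [-36, 1], i := 1,
    al := [-2, 5, 1, -3, -5, 0, 1], be := [-11544, -51422, -42892, 26720, 28656, -2534, -3791], q1 := [-11351, 11491, 22909, 17283, -2534, -3791],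
    ga := [2114, 9414, 7852, -4892, -5246, 464, 694], q2 := [2078, -2104, -4194, -3164, 464, 694], s := [60229049, 1673029, 46473, 1291, 36, 1], t := [11234434] },
  { p := 199, m := [-63, 1], i := 0,
    al := [-1, 1, 4, 1, -1, 0, 0], be := [451, 1357, -2775, -1084, 1612, 206, -221], q1 := [325, -522, -427, 221],
    ga := [-145, -434, 892, 347, -518, -66, 71], q2 := [-104, 168, 137, -71], s := [-245825, -3902, -62, -1, 0, 0], t := [-77824] },
  { p := 211, m := [-63, 1], i := 0,
    al := [-3, 8, 17, -3, -8, 0, 1], be := [-1247, -2046, 6341, 1851, -3619, -380, 493], q1 := [-1765, 7214, 1358, -3619, -380, 493],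
    ga := [377, 619, -1917, -560, 1094, 115, -149], q2 := [534, -2181, -411, 1094, 115, -149], s := [990425339, 15721037, 249540, 3961, 63, 1], t := [295719414] },
  { p := 211, m := [-67, 1], i := 0,
    al := [1, 6, -2, -9, 5, 2, -1], be := [-429, -40, 1510, 25, -753, 8, 82], q1 := [320, 347, -1145, 523, 156, -82],
    ga := [137, 13, -482, -7, 240, -3, -26], q2 := [-102, -111, 366, -168, -49, 26], s := [-1308359579, -19527755, -291459, -4350, -65, -1], t := [-415450672] },
  { p := 211, m := [-91, 1], i := 0,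
    al := [-11, 4, 12, 0, -2, 0, 0], be := [-185, -404, 692, 792, -698, -168, 128], q1 := [-912, 884, 336, -256],
    ga := [81, 177, -304, -348, 306, 74, -56], q2 := [400, -388, -148, 112], s := [-1506046, -16550, -182, -2, 0, 0], t := [-649527] },
  { p := 211, m := [-135, 1], i := 0,
    al := [7, 29, -27, -27, 19, 5, -3], be := [-1, 233, 86, -454, -256, 66, 38], q1 := [109, -1128, 18, 908, -8, -114],
    ga := [1, -148, -55, 288, 162, -42, -24], q2 := [-71, 717, -12, -576, 6, 72], s := [-132813998566, -983807397, -7287462, -53981, -400, -3], t := [-84975781073] },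
  { p := 211, m := [-141, 1], i := 0,
    al := [-3, 8, 9, -8, -7, 1, 1], be := [43, 258, -199, -308, 174, 61, -28], q1 := [170, -295, -129, 207, 33, -28],
    ga := [-29, -173, 135, 207, -118, -41, 19], q2 := [-114, 199, 86, -140, -22, 19], s := [56106310544, 397917096, 2822107, 20015, 142, 1], t := [37492842591] },
  { p := 211, m := [-143, 1], i := 0,
    al := [1, -5, -5, 5, 1, -1, 0], be := [1249, 1901, -6248, -1758, 3540, 364, -477], q1 := [-519, 3729, -1745, -841, 477],
    ga := [-851, -1296, 4257, 1198, -2412, -248, 325], q2 := [354, -2541, 1189, 573, -325], s := [-415135869, -2903048, -20301, -142, -1, 0], t := [-281348006] },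
  { p := 211, m := [-204, 1], i := 0,
    al := [15, 28, -8, -24, 5, 4, -1], be := [-319, -610, 1858, 478, -1171, -114, 167], q1 := [2498, 1547, -3818, 214, 782, -167],
    ga := [310, 593, -1804, -466, 1136, 111, -162], q2 := [-2427, -1506, 3705, -206, -759, 162], s := [-346336843268, -1697729624, -8322204, -40795, -200, -1], t := [-334846995387] },
  { p := 223, m := [-63, 1], i := 0,
    al := [1, 10, 17, 0, -13, -1, 2], be := [-265, 468, 229, -386, -126, 53, 15], q1 := [244, 359, -547, -260, 91, 30],
    ga := [75, -133, -63, 109, 34, -15, -4], q2 := [-69, -101, 155, 71, -26, -8], s := [1965870595, 31204295, 495306, 7862, 125, 2], t := [555380482] },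
  { p := 233, m := [-25, 1], i := 0,
    al := [-1, 8, 12, -7, -8, 1, 1], be := [-301, -244, 1294, 195, -666, -47, 82], q1 := [-34, 1184, -225, -713, 35, 82],
    ga := [33, 27, -142, -21, 73, 5, -9], q2 := [4, -130, 25, 78, -4, -9], s := [10027183, 401087, 16043, 642, 26, 1], t := [1075878] },
  { p := 239, m := [-120, 1], i := 0,
    al := [1, -2, -17, -5, 18, 2, -3], be := [713, -976, -745, 693, 187, -120, -1], q1 := [-237, 1912, -990, -795, 358, 3],
    ga := [-358, 493, 370, -351, -91, 61], q2 := [119, -961, 505, 395, -183], s := [-74203850042, -618365417, -5153045, -42942, -358, -3], t := [-37257163201] },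
  { p := 251, m := [-108, 1], i := 0,
    al := [-13, 10, 25, -7, -10, 1, 1], be := [51, 272, 147, -65, -17, -3, -7], q1 := [457, 142, -97, -6, -10, -7],
    ga := [-22, -117, -62, 29, 7, 1, 3], q2 := [-197, -59, 43, 2, 4, 3], s := [14816653606, 137191237, 1270289, 11762, 109, 1], t := [6375293185] },
  { p := 257, m := [-66, 1], i := 0,
    al := [-1, 3, 4, -5, -1, 1, 0], be := [-293, 55, 1351, 32, -752, -23, 97], q1 := [-18, 521, -438, -120, 97],
    ga := [76, -13, -349, -9, 194, 6, -25], q2 := [5, -135, 113, 31, -25], s := [18665727, 282814, 4285, 65, 1, 0], t := [4793533] }]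

/-- the certificates for the two primes of degree three above `5` -/
def crtN5 : List Crt := [
  { p := 5, m := [1, 0, 1, 1], i := 0,
    al := [1, 1, 0, -2, -5, 0, 1], be := [19, 33, -21, -21, 8, 3, -1], q1 := [-7, -5, -12, 5, 3, -1],
    ga := [5, 11, -2, -7, 0, 1], q2 := [-2, -2, -4, 0, 1], s := [1, -4, -1, 1], t := [0, 1] },
  { p := 5, m := [2, 3, 0, 1], i := 0,
    al := [-1, -1, 2, 2, -1, 0, 0], be := [-7, 1, -19, -3, 14, 1, -2], q1 := [-1, 0, -5, 2],
    ga := [-6, -13, 3, 8, 0, -1], q2 := [-2, -2, 1], s := [2, -1, 0, 0], t := [-1, -1, 1] }]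

theorem crtN_check : crtN.all Crt.check = true := by decide +kernel

theorem crtN5_check : crtN5.all Crt.check = true := by decide +kernel

/-- all roots of the polynomial modulo the primes `2 < p < 261` occur in the list -/
def rootsOK : Bool := (List.range 261).all fun p => !(Nat.Prime p) || p == 2 ||
  (List.range p).all fun r => !(((evL (r : ℤ) fL) % (p : ℤ)) == 0) || crtN.any fun c => c.p == p && c.m == [-(r : ℤ), 1]

end Pool.Agent.Q5.MZ
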