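import Pool.Agent.Q5.MZ.Stm2
import Pool.Agent.Q5.MZ.Cert

/-!
# Project MZ (helper5), part D: the number field of degree 21

`N = ℚ(θ)` septic, totally real, class number one; `L = ℚ(l)` cubic cyclic of conductor `73`; `K = ℚ(θ, l)` is a Galois
extension of `ℚ` of degree `21` with nonabelian group.  `K` is unramified outside `2, 73`, has one prime above
`2` (`e = 7`, `f = 3`) and odd class number.  `Dv`, `prin`, `nmD`: `Pool.Agent.Q92.AR.Def`; `act`: the Galois action on primes.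
-/

set_option autoImplicit false
set_option linter.unusedSectionVars false

namespace Pool.Agent.Q5.MZ

open NumberField IsDedekindDomain Module
open Pool.Agent.Q92.AR (Dv prin Pr nmD nu up puD Unramified)
open Pool.Agent.TeamU (act)

/-- `θ` is a root of the septic polynomial -/
def RootN {R : Type} [CommRing R] (x : R) : Prop :=
  x ^ 7 - 8 * x ^ 5 - 2 * x ^ 4 + 16 * x ^ 3 + 6 * x ^ 2 - 6 * x - 2 = 0

/-- `l` is a root of the cubic polynomial -/
def RootL {R : Type} [CommRing R] (x : R) : Prop := x ^ 3 + x ^ 2 - 24 * x - 27 = 0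

/-- the field `K` of degree `21` -/
structure KF (K : Type) [Field K] [NumberField K] (θ l : K) : Prop where
  gal : IsGalois ℚ K
  deg : finrank ℚ K = 21
  rN : RootN θ
  rL : RootL l
  nc : ∃ σ τ : K ≃ₐ[ℚ] K, σ * τ ≠ τ * σ
  gen : ∀ σ : K ≃ₐ[ℚ] K, σ θ = θ → σ l = l → σ = 1

/-- all embeddings in `ℂ` are real -/
def TotReal (N : Type) [Field N] [NumberField N] : Prop :=
  ∀ (φ : N →+* ℂ) (x : N), (starRingEnd ℂ) (φ x) = φ x

/-- class number one away from `2` -/
def ClassTwo (N : Type) [Field N] [NumberField N] : Prop :=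
  ∀ D : Dv N, ∃ x : Nˣ, ∀ v : HeightOneSpectrum (𝓞 N), (2 : 𝓞 N) ∉ v.asIdeal → D v = prin x v

/-- the prime `v` is principal away from `2` -/
def PrinV {N : Type} [Field N] [NumberField N] (v : HeightOneSpectrum (𝓞 N)) : Prop :=
  ∃ x : Nˣ, prin x v = 1 ∧ ∀ w : HeightOneSpectrum (𝓞 N), w ≠ v → (2 : 𝓞 N) ∉ w.asIdeal → prin x w = 0

/-- JOB MZ-FK. Existence of the field `K`.
Proof.  `L = ℚ[y]/(y³ + y² - 24 y - 27)`, a field of degree 3 (no rational root), with root `l`; `5 - (l + l²)/3` is another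
root of the polynomial (`ring`/`linear_combination`), so `L/ℚ` is Galois.  The septic polynomial is Eisenstein at `2`,
so irreducible, and over `L` it remains irreducible (degree 7 prime to 3: a root `θ` in an extension of `L` satisfies
`7 ∣ [L(θ) : ℚ]`, `3 ∣ [L(θ) : ℚ]`).  `K = L(θ)`, `[K : ℚ] = 21`.  Key identity: with
`R(θ, l) = (1/219) [ (-354 - 432 θ + 393 θ² + 18 θ³ - 111 θ⁴ + 9 θ⁵ + 9 θ⁶) + (22 + 10 θ - 15 θ² - 27 θ³ - 4 θ⁴ + 4 θ⁵ + θ⁶) l`
`+ (40 + 49 θ - 78 θ² - 24 θ³ + 38 θ⁴ + 4 θ⁵ - 5 θ⁶) l² ]`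
one has `RootN (R(θ, l))` (a polynomial identity modulo `f(θ)`, `g(l)`; check it by reflection: elements of
`ℤ[θ, l]/(f, g)` as lists of lists of integers as in `Cert.lean`, `219^7 f(R) = 0`, compute `R²`, `R⁴`, ... with reduction).
So `θ ↦ R(θ, l)` defines `σ ∈ Aut(K/L)`, `σ ≠ 1`; the order of `Aut(K/L)` divides `7`, so `K/L` is Galois of degree 7 and the
`σ^i θ` are the 7 roots: `K` is the splitting field of the product of the two polynomials over `ℚ`, Galois over `ℚ`.
An automorphism fixing `θ` and `l` is trivial.  Not commutative: let `τ ∈ Gal(K/ℚ(θ))`, `τ ≠ 1` (order 3), so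
`τ l ≠ l`.  If `τ σ = σ τ` then `τ (σ θ) = σ θ`, i.e. `R(θ, τ l) = R(θ, l)`; divide by `τ l - l`:
`c1(θ) + c2(θ) (l + τ l) = 0` with `c2(θ) ≠ 0`, so `l + τ l ∈ ℚ(θ)`, and the third root `-1 - l - τ l ∈ ℚ(θ)`, contradiction to the
degrees. -/
def S_FK : Prop := ∃ (K : Type) (_ : Field K) (_ : NumberField K) (θ l : K), KF K θ l

/-- JOB MZ-FU. `K/ℚ` is unramified outside `2, 3, 73` (`438 = 2 · 3 · 73`).
Proof.  Let `P` be a prime of `K` above `v`, `g` in its inertia group (`g x - x ∈ P` for all integers `x` of `K`).  Suppose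
`g θ ≠ θ`.  Both are roots of `f` (monic, so they are integers); `f(x) - f(y) = (x - y) h(x, y)`, so `h(g θ, θ) = 0` and
`f'(θ) = h(θ, θ) ≡ h(g θ, θ) = 0 mod P`.  But `u f + w f' = 146` with
`u = 77 - 486 x - 159 x² + 504 x³ + 56 x⁴ - 98 x⁵`, `w = -50 - 15 x + 186 x² + 29 x³ - 104 x⁴ - 8 x⁵ + 14 x⁶`, so `146 ∈ P`,
`438 ∈ P`, contradiction.  In the same way `g l = l`, with `(5 - 6 x) g(x) + (-33 - x + 2 x²) g'(x) = 657 = 3² · 73`.  By
`KF.gen` `g = 1`.  Inertia groups are trivial iff the prime is unramified (library `Pool.Agent.Q280.AR`,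
`Pool.Agent.Q20.EX.Inert`, or Mathlib). -/
def S_FU : Prop := ∀ (K : Type) [Field K] [NumberField K] (θ l : K), KF K θ l →
  ∀ v : HeightOneSpectrum (𝓞 ℚ), (438 : 𝓞 ℚ) ∉ v.asIdeal → Unramified K v

/-- JOB MZ-FO. There is only one prime of `K` above `2`.
Proof.  Let `P` be one, `e` its ramification index, `f` its degree.  `θ^7 = 2 (4 θ^5 + θ^4 - 8 θ^3 - 3 θ^2 + 3 θ + 1)`, so
`θ ∈ P` and the last factor is a unit at `P`; so `7 P(θ) = P(2) = e`, `7 ∣ e`.  `l mod P` is a root of the polynomial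
`y³ + y² + 1`, irreducible over `𝔽₂`, so `3 ∣ f`.  `e f g = 21` (Galois; Mathlib
`Ideal.ncard_primesOver_mul_ramificationIdxIn_mul_inertiaDegIn`), so the number `g` of the primes above `2` is one. -/
def S_FO : Prop := ∀ (K : Type) [Field K] [NumberField K] (θ l : K), KF K θ l → OneDyadic K

/-- JOB MZ-FD. The discriminant of `N`.
Proof.  Integral power basis `1, θ, .., θ^6` (`θ` has degree 7: minimal polynomial, Eisenstein); the discriminant of
this basis is the determinant of the matrix `(Tr θ^(i+j))_{0 ≤ i, j ≤ 6}`, the power sums are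
`7, 0, 16, 6, 64, 50, 304, 350, 1568, 2292, 8476, 14476, 47128`, and the determinant is `1817487424 = 2^6 · 73^4`
(use an `LU` decomposition, or `disc = ± Norm(f'(θ))` and certificates for the norm).  It is the discriminant of `N` times a
nonzero square (of the determinant of the base change to an integral basis). -/
def S_FD : Prop := ∀ (N : Type) [Field N] [NumberField N] (θ : N), finrank ℚ N = 7 → RootN θ →
  |discr N| ≤ 1817487424

/-- JOB MZ-FM. Minkowski: it is enough to consider the primes of small norm.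
Proof.  Every ideal class contains an integral ideal `I` with
`absNorm I ≤ (n!/n^n) √|discr N|` (`exists_ideal_in_class_of_norm_le`, `nrComplexPlaces = 0`), so `absNorm I ≤ B`; all prime
divisors of `I` have norm `≤ B`, so `I` is principal away from `2`.  A divisor `D` is a principal divisor plus one
with nonnegative multiplicities, i.e. an ideal. -/
def S_FM : Prop := ∀ (N : Type) [Field N] [NumberField N] (B : ℕ), TotReal N →
  ((finrank ℚ N).factorial : ℝ) / (finrank ℚ N : ℝ) ^ (finrank ℚ N) * Real.sqrt |(discr N : ℝ)| < (B : ℝ) + 1 →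
  (∀ v : HeightOneSpectrum (𝓞 N), (2 : 𝓞 N) ∉ v.asIdeal → Ideal.absNorm v.asIdeal ≤ B → PrinV v) →
  ClassTwo N

/-- JOB MZ-FQ. The ideal `(p, m(θ))`.
Proof.  `146 ∈ (f, f')` (see MZ-FU) and the discriminant `± Norm(f'(θ))` of the basis `1, .., θ^6` is prime to `p` (`Norm(f'(θ))`
divides `Norm(146) = 146^7`), and discriminant times `𝓞 N` is contained in `ℤ[θ]` (Mathlib:
`Algebra.discr_mul_isIntegral_mem_adjoin`).  So every `x ∈ 𝓞 N` is congruent modulo `p 𝓞 N` to an element of `ℤ[θ]`, and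
`𝓞 N/(p, m(θ))` is a quotient of `𝔽_p[x]/(m)`, a field: the ideal `I = (p, m(θ)) ⊆ v` is maximal, `I = v`.  So for `w ≠ v` one of
`p`, `m(θ)` is a unit at `w`, and the smaller one of `v(p)`, `v(m(θ))` is `1`.  From the certificate `α = s m(θ) + p t ∈ I = v`,
and `α` divides `2^i p` and `2^i m(θ)`: `v(α) = 1`, `w(α) = 0` for `w ≠ v`, `w ∤ 2`. -/
def S_FQ : Prop := ∀ (N : Type) [Field N] [NumberField N] (θ : 𝓞 N) (c : Crt) (v : HeightOneSpectrum (𝓞 N)),
  finrank ℚ N = 7 → RootN θ → c.check = true → c.p.Prime → c.p ≠ 2 → c.p ≠ 73 →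
  Irreducible (evL (Polynomial.X : Polynomial (ZMod c.p)) c.m) →
  ((c.p : ℕ) : 𝓞 N) ∈ v.asIdeal → evL θ c.m ∈ v.asIdeal → PrinV v

/-- JOB MZ-FP. The primes of norm at most `260`.
Proof.  Let `v ∤ 2` lie above `p`, `absNorm v = p^d ≤ 260`; the residue field `κ = 𝓞 N/v` has `p^d` elements.
(1) If `d = 1` then `θ ≡ r mod v` with `0 ≤ r < p`, `p ∣ f(r)`, so `crtN` contains an entry `c` with `c.p = p`, `c.m = [-r, 1]`
(`decide +kernel` of a Boolean statement as `rootsOK` in `Cert.lean`), and `S_FQ` applies for `p ≠ 73` (`x - r` is irreducible).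
(2) `p = 73` (`d = 1`): the three entries have roots `r = 29, 45, 67` and elements `α_r ∈ (73, θ - r)`, and
`α_29 α_45³ α_67³ ε = 73` with `ε = 727 + 1783 θ - 2994 θ² - 3540 θ³ + 2891 θ⁴ + 789 θ⁵ - 507 θ⁶`, a unit with inverse
`-2093 + 321 θ + 5259 θ² + 175 θ³ - 2630 θ⁴ - 108 θ⁵ + 335 θ⁶`.  Each ideal `(73, θ - r)` of `ℤ[θ]` is contained in a prime of
`𝓞 N` (lying over), so no `α_r` is a unit and the norms satisfy `N(α_29) N(α_45)³ N(α_67)³ = ± 73^7`, so all three are
`± 73` (`1 + 3 + 3 = 7`), and `v ∋ α_r` has norm `73`: `(α_r) = v`.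
(3) `d ≥ 2`: then `p ≤ 16`.  `p = 3` (`d ≤ 5`) and `p = 7` (`d = 2`): `f` is irreducible modulo `p` (it has no factor of degree
`≤ 3` for `p = 3`; for `p = 7` we only need: no factor of degree `≤ 2`); the class of `θ` in `κ` generates a subfield of
degree dividing `d`, the minimal polynomial divides `f`: contradiction (for `p = 3` the cofactor of a factor of degree 4 or 5
has degree 3 or 2).  `p = 5` (`d ≤ 3`), `p = 11`, `p = 13` (`d = 2`): `f ≡ (x - r) m1 m2 mod p` with
`p = 5`: `r = 1`, `m1 = 1 + x² + x³`, `m2 = 2 + 3 x + x³`; `p = 11`: `r = 2`, `m1 = 3 + 9 x + 5 x² + x³`, `m2 = 4 + 2 x + 8 x² + x³`;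
`p = 13`: `r = 10`, `m1 = 6 + 9 x + 12 x² + x³`, `m2 = 10 + 3 x + 11 x² + x³`; the cubic polynomials have no root modulo `p`, so
they are irreducible.  One of the three factors at `θ` is in `v`.  If `θ - r ∈ v` apply `S_FQ` with `crtN`.  If `m_i(θ) ∈ v`: for
`p = 5` apply `S_FQ` with `crtN5`; for `p = 11, 13` `3 ∣ d = 2`, contradiction. -/
def S_FP : Prop := ∀ (N : Type) [Field N] [NumberField N] (θ : 𝓞 N) (v : HeightOneSpectrum (𝓞 N)),
  finrank ℚ N = 7 → RootN θ → (2 : 𝓞 N) ∉ v.asIdeal → Ideal.absNorm v.asIdeal ≤ 260 → PrinV v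

def J_FP : Prop := S_FQ → S_FP

/-- JOB MZ-FN. Class number one of `N`.
Proof.  `7!/7^7 · √1817487424 = 260.9.. < 261`: apply `S_FM` with `B = 260`. -/
def S_FN : Prop := ∀ (N : Type) [Field N] [NumberField N] (θ : N), finrank ℚ N = 7 → RootN θ → TotReal N →
  ClassTwo N

def J_FN : Prop := S_FD → S_FM → S_FP → S_FN

/-- JOB MZ-FL. Class number one of `L`.
Proof.  `ω = (l² + l)/3` is an integer: `l ω = 8 l + 9`, `ω² = 3 + 3 l + 8 ω`.  The discriminant of `1, l, ω` is `73²` (the one of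
`1, l, l²` is `9 · 73²`), so `|discr L| ≤ 73²` and `3!/3^3 · 73 = 16.2.. < 17`: `S_FM` with `B = 16`.  Primes `v ∤ 2` of norm `≤ 16`:
`p = 5, 11, 13`: the cubic polynomial has no root modulo `p`, so `absNorm v ≥ p³`.  `p = 7`: degree one (`7² > 16`),
`l ≡ 1, 2, 3 mod v`; `p = 3`: `3^d ≤ 16`, `d ≤ 2`.  The elements of norm `± 3`: `ω`, `l + 1` and the conjugates (`l ↦ 5 - ω ↦ ω - l - 6`
are the conjugates of `l`, `L/ℚ` is Galois), and of norm `± 7`: `1 + l - ω` and its conjugates.  The product of the three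
conjugates of such an element is `± 3` (`± 7`), so every `v ∋ 3` (`7`) contains one of them, and it has norm `3`
(`7`), so it generates `v`.  (Norms of `a + b l + c ω`: determinants of `3 × 3` matrices.) -/
def S_FL : Prop := ∀ (L : Type) [Field L] [NumberField L] (l : L), finrank ℚ L = 3 → RootL l → TotReal L →
  ClassTwo L

def J_FL : Prop := S_FM → S_FL

/-- JOB MZ-FC. The class group of `K` has odd order (it is killed by `7`).
Proof.  `K` is totally real: a complex conjugation is an element of `Gal(K/ℚ)` with square 1, the order is odd.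
`N = ℚ(θ)`, `L = ℚ(l)` (intermediate fields, of degree 7 and 3: the degrees divide 21, and minimal polynomials) are
totally real, too (every embedding extends to `K`).  So `ClassTwo N`, `ClassTwo L`.  `G = Gal(K/ℚ)` is a
nonabelian group of order 21: one subgroup `C` of order 7, seven subgroups of order 3, `G` is the union of these, any two of
them meet in `1`, so in the group ring `∑_H ∑_{h ∈ H} h + ∑_{c ∈ C} c = 7 + ∑_{g ∈ G} g`, `H` the subgroups of order 3.
`H0 = Gal(K/N)` has order 3, all `H` are conjugates `g H0 g⁻¹`; `C = Gal(K/L)`.  For a divisor `D` of `K`: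
`∑_{h ∈ H0} h D` is the divisor generated by `nmD N K D` (for a prime `w` with ramification index `e` and degree `f` over
`u = w.under`: `∑_h h w = e f ∑_{w' ∣ u} w' = f · (conorm of u)`), so away from `2` it is `prin x`, `x ∈ N`; the sum over
`g H0 g⁻¹` is `g (∑_h h (g⁻¹ D))`, away from `2` also principal; `∑_{c ∈ C} c D` is principal away from `2` (`L`), and so
is `∑_{g ∈ G} g D` (sum of three conjugates).  So `7 D = prin x` away from `2`, and `D = 2 (-3 D) + prin x`. -/
def S_FC : Prop := ∀ (K : Type) [Field K] [NumberField K] (θ l : K), KF K θ l → OddClass K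

def J_FC : Prop := S_FN → S_FL → S_FC

/-- the matrices generating the image of order `21` -/
def matA : Matrix (Fin 3) (Fin 3) (ZMod 2) := !![0, 0, 1; 1, 0, 1; 0, 1, 0]
def matB : Matrix (Fin 3) (Fin 3) (ZMod 2) := !![1, 0, 0; 0, 0, 1; 0, 1, 1]

/-- JOB MZ-FR. The faithful representation of the group of order 21.
Proof.  `A^7 = 1`, `B^3 = 1`, `B A B⁻¹ = A²` (`decide`).  The nonabelian group `G` of order 21 contains (Sylow) `σ` of order 7,
`⟨σ⟩` normal, `τ` of order 3, `τ σ τ⁻¹ = σ^k`, `k ≠ 1` modulo 7, `k³ = 1`, so `k = 2` or `4`; replace `τ` by `τ⁻¹` to get `k = 2`.  Every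
element is `σ^i τ^j`, uniquely, and `r(σ^i τ^j) = A^i B^j` is an injective homomorphism. -/
def S_FR : Prop := ∀ (G : Type) [Group G], Nat.card G = 21 → (∃ g h : G, g * h ≠ h * g) →
  ∃ r : G →* GL (Fin 3) (ZMod 2), Function.Injective r ∧
    (∃ σ, ((r σ : GL (Fin 3) (ZMod 2)) : Matrix (Fin 3) (Fin 3) (ZMod 2)) = matA) ∧
    (∃ τ, ((r τ : GL (Fin 3) (ZMod 2)) : Matrix (Fin 3) (Fin 3) (ZMod 2)) = matB)

/-- what is needed of the field `K` in the sequel -/
structure KData (K : Type) [Field K] [NumberField K] (r : (K ≃ₐ[ℚ] K) →* GL (Fin 3) (ZMod 2)) : Prop where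
  gal : IsGalois ℚ K
  deg : finrank ℚ K = 21
  inj : Function.Injective r
  ma : ∃ σ, ((r σ : GL (Fin 3) (ZMod 2)) : Matrix (Fin 3) (Fin 3) (ZMod 2)) = matA
  mb : ∃ τ, ((r τ : GL (Fin 3) (ZMod 2)) : Matrix (Fin 3) (Fin 3) (ZMod 2)) = matB
  one : OneDyadic K
  odd : OddClass K
  unr : ∀ v : HeightOneSpectrum (𝓞 ℚ), (438 : 𝓞 ℚ) ∉ v.asIdeal → Unramified K v

/-- JOB MZ-FX. Assembly of part D. -/
def S_FX : Prop := ∃ (K : Type) (_ : Field K) (_ : NumberField K) (r : (K ≃ₐ[ℚ] K) →* GL (Fin 3) (ZMod 2)), KData K r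

def J_FX : Prop := S_FK → S_FU → S_FO → S_FC → S_FR → S_FX

end Pool.Agent.Q5.MZ
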