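import Pool.Agent.Q5.SH.Base

/-!
# Project MZ (helper5): definitions for the arithmetic part

`k`, `E`, `L` are number fields; divisors `Dv`, `prin`, norms `nmD`, `nu`, Artin map `art`: `Pool.Agent.Q92.AR.Def`.
-/

set_option autoImplicit false
set_option linter.unusedSectionVars false

namespace Pool.Agent.Q5.MZ

open NumberField IsDedekindDomain Module
open Pool.Agent.Q92.AR (Dv prin Pr Ray RayD art nmD nu up puD Cong Pos frob IsFrobenius Unramified Ram)
open Pool.Agent.TeamU (act)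

section
variable {k : Type} [Field k] [NumberField k]

/-- `x` is a local norm of `E/k` at the finite prime `v` (approximation by global norms) -/
def LocN (E : Type) [Field E] [NumberField E] [Algebra k E] (v : HeightOneSpectrum (𝓞 k)) (x : kˣ) : Prop :=
  ∀ m : ℕ, ∃ y : Eˣ, v.valuation k ((x : k) / (nu k E y : k) - 1) ≤ WithZero.exp (-(m : ℤ))

/-- there is only one prime of `E` above `v` -/
def NonSplit (E : Type) [Field E] [NumberField E] [Algebra k E] (v : HeightOneSpectrum (𝓞 k)) : Prop :=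
  ∀ w w' : HeightOneSpectrum (𝓞 E), w.under (𝓞 k) = v → w'.under (𝓞 k) = v → w = w'

/-- `x` is positive at the real places of `k` which ramify in `E` -/
def PosRam (E : Type) [Field E] [NumberField E] [Algebra k E] (x : kˣ) : Prop :=
  ∀ φ : k →+* ℝ, (¬ ∃ χ : E →+* ℝ, χ.comp (algebraMap k E) = φ) → 0 < φ (x : k)

end

section
variable (k E : Type) [Field k] [NumberField k] [Field E] [NumberField E] [Algebra k E]

/-- `k` has exactly one prime above `2` -/
def OneDyadic (k : Type) [Field k] [NumberField k] : Prop :=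
  ∃! v : HeightOneSpectrum (𝓞 k), (2 : 𝓞 k) ∈ v.asIdeal

/-- the class group of the ring `𝓞 k [1/2]` has odd order: every divisor is, outside `2`, twice a divisor
plus a principal divisor -/
def OddClass (k : Type) [Field k] [NumberField k] : Prop :=
  ∀ D : Dv k, ∃ (D' : Dv k) (x : kˣ), ∀ v : HeightOneSpectrum (𝓞 k), (2 : 𝓞 k) ∉ v.asIdeal →
    D v = 2 * D' v + prin x v

/-- the primes of `k` which do not lie above `2` are unramified in `E` -/
def TwoUnram : Prop :=
  ∀ v : HeightOneSpectrum (𝓞 k), (2 : 𝓞 k) ∉ v.asIdeal → Unramified E v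

/-- the degree of `E/k` is a power of two -/
def TwoPow : Prop := ∃ m : ℕ, finrank k E = 2 ^ m

variable {k E}

/-- `σ` is a complex conjugation (for some embedding of `E` in `ℂ`); `σ = 1` is allowed, if the embedding
is real -/
def IsCC (σ : E ≃ₐ[k] E) : Prop := ∃ φ : E →+* ℂ, ∀ x : E, φ (σ x) = (starRingEnd ℂ) (φ x)

/-- the decomposition group of the prime `w` of `E` -/
def Dec (k : Type) [Field k] [NumberField k] {E : Type} [Field E] [NumberField E] [Algebra k E]
    (w : HeightOneSpectrum (𝓞 E)) : Set (E ≃ₐ[k] E) := {g | act g w = w}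

/-- normalized `2`-cocycles with values in `±1` -/
structure Coc (c : (E ≃ₐ[k] E) → (E ≃ₐ[k] E) → ℤˣ) : Prop where
  one : c 1 1 = 1
  coc : ∀ g h j, c g h * c (g * h) j = c h j * c g (h * j)

/-- `c` is trivial at the real places: `c σ σ = 1` for the complex conjugations -/
def RealTriv (c : (E ≃ₐ[k] E) → (E ≃ₐ[k] E) → ℤˣ) : Prop := ∀ σ, IsCC σ → c σ σ = 1

/-- `c` splits in `Eˣ` -/
def SplitsIn (c : (E ≃ₐ[k] E) → (E ≃ₐ[k] E) → ℤˣ) : Prop :=
  ∃ b : (E ≃ₐ[k] E) → Eˣ, ∀ g h, (b g : E) * g (b h : E) = (b (g * h) : E) * (((c g h : ℤˣ) : ℤ) : E)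

end

/-- VA-data: a congruence subgroup `A` of `Eˣ` as in `Pool.Agent.Q92.AR.S_VA` -/
structure VAData (k E : Type) [Field k] [NumberField k] [Field E] [NumberField E] [Algebra k E]
    (σ : E ≃ₐ[k] E) (N1 N2 : ℕ) (A : Subgroup Eˣ) : Prop where
  gen : ∀ g : E ≃ₐ[k] E, g ∈ Subgroup.zpowers σ
  n1 : N1 ≠ 0
  n2 : N2 ≠ 0
  ram : Ram k E N1
  dvd : N1 ∣ N2
  pow : ∃ j : ℕ, N2 ∣ N1 ^ j
  stable : ∀ x ∈ A, Units.map (σ : E →* E) x ∈ A
  sub : ∀ x ∈ A, Cong N1 (x : E)
  sup : ∀ x : Eˣ, Cong N2 (x : E) → x ∈ A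
  h1 : ∀ x : Eˣ, Units.map (σ : E →* E) x / x ∈ A → ∃ c : kˣ, x / up k E c ∈ A

/-- `L` is generated by two subfields `E`, `F`: an automorphism over `k` which is trivial on both is trivial -/
def Gen2 (k E F L : Type) [Field k] [Field E] [Field F] [Field L] [Algebra k E] [Algebra k F] [Algebra k L]
    [Algebra E L] [Algebra F L] : Prop :=
  ∀ g : L ≃ₐ[k] L, (∀ x : E, g (algebraMap E L x) = algebraMap E L x) →
    (∀ x : F, g (algebraMap F L x) = algebraMap F L x) → g = 1

end Pool.Agent.Q5.MZ
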