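import Pool.Agent.Q5.MZ.Stm3

/-!
# Project MZ (helper5): Galois groups with restricted ramification and deformation rings

These are the definitions of the final theorem.  `Unramified E v` (`Pool.Agent.Q92.AR.Unramified`): no prime `w` of `E`
above `v` has `v 𝓞_E ⊆ w²`.
-/

set_option autoImplicit false
set_option linter.unusedSectionVars false

namespace Pool.Agent.Q5.MZ

open NumberField IsDedekindDomain Module
open Pool.Agent.Q92.AR (Unramified)

section field
variable (F : Type) [Field F] [NumberField F] (S : Set (HeightOneSpectrum (𝓞 F)))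

/-- `F_S`: the subfield of the algebraic closure of `F` generated by all finite extensions of `F` which are
unramified at the primes outside `S` (and arbitrary at the archimedean places) -/
noncomputable def maxUnram : IntermediateField F (AlgebraicClosure F) :=
  IntermediateField.adjoin F {x | ∃ (E : Type) (_ : Field E) (_ : NumberField E) (_ : Algebra F E)
    (ι : E →ₐ[F] AlgebraicClosure F), (∀ v : HeightOneSpectrum (𝓞 F), v ∉ S → Unramified E v) ∧ x ∈ Set.range ι}

/-- `G_{F,S} = Gal(F_S/F)` (with the Krull topology of Mathlib) -/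
abbrev GS : Type := (maxUnram F S) ≃ₐ[F] (maxUnram F S)

variable {F S}

/-- the decomposition group of the archimedean place of `F_S` given by the embedding `φ` in `ℂ` -/
def decInf (φ : maxUnram F S →+* ℂ) : Set (GS F S) :=
  {g | (∀ x, φ (g x) = φ x) ∨ ∀ x, φ (g x) = (starRingEnd ℂ) (φ x)}

end field

section ad
variable {G : Type} [Group G] {n : ℕ} {k : Type} [Field k]

/-- the trace zero matrices commuting with `ρ̄(g)` for all `g ∈ D`: `H⁰(D, Ad⁰(ρ̄))` -/
def adInv (rbar : G →* GL (Fin n) k) (D : Set G) : Submodule k (Matrix (Fin n) (Fin n) k) where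
  carrier := {X | X.trace = 0 ∧ ∀ g ∈ D, (rbar g : Matrix (Fin n) (Fin n) k) * X = X * (rbar g : Matrix (Fin n) (Fin n) k)}
  zero_mem' := by simp
  add_mem' := by
    rintro X Y ⟨hX, hX'⟩ ⟨hY, hY'⟩
    refine ⟨by rw [Matrix.trace_add, hX, hY, add_zero], fun g hg => ?_⟩
    rw [mul_add, add_mul, hX' g hg, hY' g hg]
  smul_mem' := by
    rintro a X ⟨hX, hX'⟩
    refine ⟨by rw [Matrix.trace_smul, hX, smul_zero], fun g hg => ?_⟩
    rw [Matrix.mul_smul, Matrix.smul_mul, hX' g hg]

/-- `ρ̄` is absolutely irreducible -/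
def AbsIrr (rbar : G →* GL (Fin n) k) : Prop :=
  n ≠ 0 ∧ ∀ W : Submodule (AlgebraicClosure k) (Fin n → AlgebraicClosure k),
    (∀ g : G, ∀ w ∈ W, ((rbar g : Matrix (Fin n) (Fin n) k).map (algebraMap k (AlgebraicClosure k))).mulVec w ∈ W) →
    W = ⊥ ∨ W = ⊤

end ad

/-- `φ` is a choice of an embedding of `F_S` in `ℂ` above each archimedean place of `F` -/
def IsEmb {F : Type} [Field F] [NumberField F] {S : Set (HeightOneSpectrum (𝓞 F))}
    (φ : InfinitePlace F → (maxUnram F S →+* ℂ)) : Prop :=
  ∀ v, InfinitePlace.mk ((φ v).comp (algebraMap F (maxUnram F S))) = v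

open scoped Classical in
/-- Mazur's number `δ(ρ̄) = (1 + r₂) + (n² - 1) [F : ℚ] - ∑_v dim H⁰(G_v, Ad⁰(ρ̄))` -/
noncomputable def delta {F : Type} [Field F] [NumberField F] {S : Set (HeightOneSpectrum (𝓞 F))} {n : ℕ} {k : Type}
    [Field k] (rbar : GS F S →* GL (Fin n) k) (φ : InfinitePlace F → (maxUnram F S →+* ℂ)) : ℤ :=
  (1 + (InfinitePlace.nrComplexPlaces F : ℤ)) + ((n : ℤ) ^ 2 - 1) * (finrank ℚ F : ℤ) -
    ∑ v : InfinitePlace F, (finrank k (adInv rbar (decInf (φ v))) : ℤ)

section deform
variable (p : ℕ) [Fact p.Prime] (k : Type) [Field k]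

/-- complete noetherian local `W(k)`-algebras with residue field `k`; `red` is the map to the residue field -/
structure CNL (A : Type) [CommRing A] [Algebra (WittVector p k) A] (red : A →+* k) : Prop where
  loc : IsLocalRing A
  noeth : IsNoetherianRing A
  complete : IsAdicComplete (RingHom.ker red) A
  compat : ∀ z : WittVector p k, red (algebraMap (WittVector p k) A z) = WittVector.constantCoeff z

variable {p k} {G : Type} [Group G] [TopologicalSpace G] {n : ℕ}

/-- `r` is a continuous lift of `ρ̄` to `A` -/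
structure IsLift (rbar : G →* GL (Fin n) k) {A : Type} [CommRing A] (red : A →+* k) (r : G →* GL (Fin n) A) : Prop where
  lift : ∀ g, Matrix.GeneralLinearGroup.map red (r g) = rbar g
  cont : ∀ N : ℕ, IsOpen {g : G | ∀ i j, ((r g : Matrix (Fin n) (Fin n) A) - 1) i j ∈ (RingHom.ker red) ^ N}

/-- strict equivalence -/
def StrictEq {A : Type} [CommRing A] (red : A →+* k) (r r' : G →* GL (Fin n) A) : Prop :=
  ∃ u : GL (Fin n) A, Matrix.GeneralLinearGroup.map red u = 1 ∧ ∀ g, r' g = u * r g * u⁻¹

/-- `(R, ru)` is a universal deformation ring of `ρ̄` with its universal deformation -/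
structure IsUniv (rbar : G →* GL (Fin n) k) (R : Type) [CommRing R] [Algebra (WittVector p k) R] (redR : R →+* k)
    (ru : G →* GL (Fin n) R) : Prop where
  cnl : CNL p k R redR
  lift : IsLift rbar redR ru
  univ : ∀ (A : Type) [CommRing A] [Algebra (WittVector p k) A] (redA : A →+* k), CNL p k A redA →
    ∀ r : G →* GL (Fin n) A, IsLift rbar redA r →
      ∃! f : R →ₐ[WittVector p k] A, StrictEq redA ((Matrix.GeneralLinearGroup.map (f : R →+* A)).comp ru) r

end deform

/-- Mazur's assertion for a universal deformation ring `R`: flat over `W(k)` of relative dimension `δ` -/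
def MazurHolds {F : Type} [Field F] [NumberField F] {S : Set (HeightOneSpectrum (𝓞 F))} {n : ℕ} (p : ℕ) [Fact p.Prime]
    {k : Type} [Field k] (rbar : GS F S →* GL (Fin n) k) (φ : InfinitePlace F → (maxUnram F S →+* ℂ))
    (R : Type) [CommRing R] [Algebra (WittVector p k) R] : Prop :=
  Module.Flat (WittVector p k) R ∧
    ∃ d : ℕ, (d : ℤ) = delta rbar φ ∧ ringKrullDim (R ⧸ Ideal.span {(p : R)}) = (d : WithBot ℕ∞)

end Pool.Agent.Q5.MZ
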