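import Pool.Agent.Q5.MZ.Defs

/-!
# Project MZ (helper5): disproof of Mazur's dimension conjecture (MP_aa8fd2_nt), arithmetic part

GOAL of this file: `S_EM`, the solution of embedding problems with kernel an elementary abelian `2`-group for
the extensions of a field `k` with one prime `w` above `2` and odd class number, unramified outside `2`, the
only obstruction being the one at the real places.

METHOD.  Part A: the norm theorem of Hasse for quadratic extensions, with one place omitted (`S_LF`), from the
first and second inequality and Artin's reciprocity law of the library.  Part B: a `±1`-valued `2`-cocycle of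
`Gal(L/k)`, trivial at the real places, splits in `Lˣ` (`S_BE`).  Part C: embedding problems.

Notations: `Pool.Agent.Q5.MZ.Defs`, `Pool.Agent.Q92.AR.Def`, `Pool.Agent.Q20.EX.Stm` (`CongAt`, `Split`).
All statements of AR and EX are PROVED and may be used: `Pool.Agent.Q92.AR.All` (`all_Fin : S_Fin`, `all_SD : S_SD`,
`all_HAS : S_HAS`, `all_Q1 : S_Q1`, `all_Sec : S_Sec`, `all_NKer : S_NKer`, `recip : S_AR`, `Pool.Agent.Q149.AR.va : S_VA`,
`Pool.Agent.Q150.AR.hex : S_Hex`, `Pool.Agent.Q150.AR.hFin : S_HFin`, `Pool.Agent.Q84.AR.sgn : S_Sgn`,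
`Pool.Agent.Q106.AR.nm : S_Nm`, `Pool.Agent.Q14.AR.cheb : S_Cheb`, `Pool.Agent.Q225.AR.fr : S_FR`,
`Pool.Agent.Q280.AR.unr : S_Unr`, `Pool.Agent.Q280.AR.rF : S_RF`), `Pool.Agent.Q20.EX.All` (there you find the modules
with the proofs of `S_NRM`, `S_GOOD`, ...).  The file `Pool/Agent/Q5/MZ/Defs.lean` imports all of them.
`Pool.Agent.Q128.AR.val_prin`: `v.valuation K x = exp (-(prin x v))`.
APPROXIMATION: for finitely many different primes `v_i`, `a_i ∈ kˣ` and `m` there is an `x ∈ kˣ` with
`v_i(x / a_i - 1) < exp (-m)` for all `i`, and `x` may be multiplied by elements near `1` with given signs (`S_Sgn`).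
-/

set_option autoImplicit false
set_option linter.unusedSectionVars false

namespace Pool.Agent.Q5.MZ

open NumberField IsDedekindDomain Module
open Pool.Agent.Q92.AR (Dv prin Pr Ray RayD art nmD nu up puD Cong Pos frob IsFrobenius Unramified Ram SupF)
open Pool.Agent.TeamU (act)
open Pool.Agent.Q20.EX (CongAt)

/-! ## Part A: the norm theorem of Hasse for quadratic extensions -/

/-- JOB MZ-LA. The norm theorem for elements near `1` at the bad primes (cyclic extensions).
Proof: this is the case of equality in the proof of the first inequality (`S_First` of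
`Pool/Agent/Q92/AR/Stm.lean`, proved in `Pool/Agent/Q182/AR/First.lean`; reuse that file).  As there choose a finite
set `T` of primes of `k` not dividing `N1` with (T1), (T2), (T3), and in addition containing all primes `v`
with `prin x v ≠ 0` (they do not divide `N1`).  Let `AS = AS A T`, `I = SupE k E T`, `J = SupF k T`,
`X = {c ∈ kˣ : up c ∈ A, prin c ∈ J}` (these are the elements of `AS` fixed by `σ`), `Y = {c ∈ X : PosRam c}`, `r` the number
of the ramified real places, so `[X : Y] = 2^r` by (T3), and `Z = {c ∈ Y : prin c ∈ nmD I}`, which contains `nu (AS)`.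
`q0 τ = [X : nu AS] = 2^r [Y : Z] [Z : nu AS]` and `q0 ι = [J : nmD I] = [Y : Z] [J : prin Y + nmD I]`
(`Y / Z ≅ (prin Y + nmD I) / nmD I`), `q1 τ = q1 ι = 1` (`S_Q1`, `S_SD`), so `S_HAS` gives
`[Z : nu AS] [E : k] = [J : prin Y + nmD I]`.  Now `Pr k N2 = prin (Ray k N2) + J` (T1) and
`J ∩ HN k E N2 = prin Y + nmD I`: if `j = prin r + nmD D`, `r ∈ Ray k N2`, `D ∈ Pr E N2`, then `D = prin x + D'` with `x ∈ A`,
`D' ∈ I` by (T2), so `j = prin (r nu x) + nmD D'` and `r nu x ∈ Y` (norms are positive at the ramified real places,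
`S_Nm` (5); `up (nu x) = ∏ g x ∈ A`).  Hence `[J : prin Y + nmD I] = [Pr k N2 : HN k E N2] ≤ [E : k]` by the second
inequality `S_Sec`, and `Z = nu AS`.  The `x` of the statement is in `Z` (replace `D` by its part above `T`). -/
def S_LA : Prop := ∀ (k E : Type) [Field k] [NumberField k] [Field E] [NumberField E] [Algebra k E]
  [IsGalois k E] (σ : E ≃ₐ[k] E) (N1 N2 : ℕ) (A : Subgroup Eˣ), VAData k E σ N1 N2 A →
  ∀ x : kˣ, up k E x ∈ A → PosRam E x → (∃ D ∈ Pr E N1, nmD k E D = prin x) → ∃ y ∈ A, nu k E y = x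

/-- JOB MZ-LB. The local norm index (all bad primes together), `[E : k] = 2`.
Proof.  Consider the `σ`-module `C = Eˣ / A`.
(1) `q0 C`: the fixed elements are the classes of `up c`, `c ∈ kˣ` (`VAData.h1`), the traces are the classes of `nu y`,
so `q0 C = [kˣ A : nu(Eˣ) A] = [kˣ : nu(Eˣ) (kˣ ∩ A)]`, the index of the statement.
(2) `q1 C = 1`: let `nu y ∈ A` (as an element of `Eˣ`).  Then `x = nu y ∈ kˣ` satisfies the hypotheses of `S_LA`: `x` is
positive at the ramified real places (`S_Nm` (5)), `prin x = nmD (prin y)`, and since `x` is a unit at `N1` it is also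
`nmD` of the part of `prin y` prime to `N1`.  So `x = nu a`, `a ∈ A`, and `y / a` has norm `1`, `y / a = σ z / z`
(Hilbert 90).
(3) Let `T` be the set of the primes of `k` dividing `N1`.  `Eˣ → SupE k E T`, `y ↦` the part of `prin y` above `T`, is
onto (approximation), with kernel `U` the units at `N1`, and `U / A` is finite (it is a quotient of `(𝓞 E / N2)ˣ`).
So `C` is an extension of `SupE k E T` by a finite module, and `S_Hex`, `S_HFin` give
`q0 C * q1 ι = q1 C * q0 ι`, `ι` the action of `σ` on `SupE k E T`.  `q1 ι = 1`, `q0 ι = 2 ^ #{v ∈ T non split}`: `S_Perm` of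
the library (`Pool.Agent.Q225.AR.perm`), as in the proof of `S_SD` (7): `ℤ` with trivial action has `q0 = 2`,
`ℤ²` with the exchange has `q0 = 1`. -/
def S_LB : Prop := ∀ (k E : Type) [Field k] [NumberField k] [Field E] [NumberField E] [Algebra k E]
  [IsGalois k E] (σ : E ≃ₐ[k] E) (N1 N2 : ℕ) (A : Subgroup Eˣ), finrank k E = 2 → VAData k E σ N1 N2 A →
  ((nu k E).range ⊔ A.comap (up k E)).index =
    2 ^ Nat.card {v : HeightOneSpectrum (𝓞 k) // (N1 : 𝓞 k) ∈ v.asIdeal ∧ NonSplit E v}

def J_LB : Prop := S_LA → S_LB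

/-- JOB MZ-LC. The local component of the Artin character of a quadratic extension at a prime `v` which does
not split is not trivial.
Proof.  If the claim is false for `N` it is false for all multiples of `N` (`CongAt` gets stronger); so `N` may
be enlarged when needed.  Case 1: `v` is unramified in `E`, so inert, `ψ (frob E v) ≠ 1`.  `S_GOOD` (proved in the
library, with `S_NRM`): for suitable `N` all totally positive `z`, `≡ 1 mod N` at the primes `≠ v`, satisfy
`art ψ (prin z) = 0`.  Choose such a `z` with `v(z) = 1` (approximation): `art ψ (prin z - v) = - art ψ v ≠ 0`.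
Case 2: `v` is ramified in `E = k(√b)`.  There is an `s ∈ 𝓞 k` such that `t² - t + s` is irreducible modulo `v`; `a = 1 - 4 s`;
`k(√a)` is unramified and inert at `v` (generated over the local ring at `v` by a root of `t² - t + s`, whose
discriminant `a` is a unit at `v`: irreducible and separable modulo `v`; if `v ∤ 2` this says that `a` is not a square
modulo `v`).  Let `M = k(√a, √b)`, a biquadratic extension (a number field with `IsGalois k M`), `ψ_a, ψ_b` the
characters of `Gal(M/k)` belonging to `√a`, `√b`, `ψ_ab = ψ_a ψ_b` the one belonging to `√(ab)`.  Suppose that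
`art ψ_b (D_z) = 0` for all totally positive `z`, `≡ 1 mod N` at the primes `≠ v`, where `D_z = prin z - v(z) v`.  By
case 1 (its proof) `art ψ_a (D_z) = - v(z) art ψ_a (v)`, so `art ψ_ab (D_z) = - v(z) art ψ_a(v)`.  `v` is ramified in
`E' = k(√(ab))` (otherwise it would be unramified in `M`, which is generated by `√a` and `√(ab)`, and in `E`), let `W` be the
prime above `v`, and let `y ∈ E'ˣ` be totally positive, `W(y) = 1`, `y ≡ 1 mod N²` at the other primes dividing `N`.
`z = nu y` is totally positive, `≡ 1` at the primes `≠ v`, `v(z) = 1`, and `D_z = nmD (prin y - W)`, which is killed by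
`art ψ_ab` (`S_NKer` (1)); contradiction. -/
def S_LC : Prop := ∀ (k E : Type) [Field k] [NumberField k] [Field E] [NumberField E] [Algebra k E]
  [IsGalois k E] (ψ : (E ≃ₐ[k] E) →* ℂˣ) (v : HeightOneSpectrum (𝓞 k)) (N : ℕ), finrank k E = 2 →
  Function.Injective ψ → N ≠ 0 → (N : 𝓞 k) ∈ v.asIdeal → Ram k E N → NonSplit E v →
  ∃ z : kˣ, Pos (z : k) ∧ CongAt {v}ᶜ N (z : k) ∧ art ψ (prin z - Finsupp.single v (prin z v)) ≠ 0

/-- JOB MZ-LD. The kernel of all local components is the group of local norms.
Proof.  Let `B` be the set of the primes `v ∣ N1` of `k` with `NonSplit E v`.  For `x ∈ kˣ`, `v ∈ B` choose (approximation)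
`z` totally positive, `≡ 1 mod N2` at the primes `≠ v`, with `v(x/z - 1) ≥ v(N2)`, and put
`Ψ_v(x) = art ψ (prin z - v(z) v)`.  This is independent of `z` (the quotient of two choices is in `Ray k N2`, and is a unit
at `v`), multiplicative, and of order two.  `Ψ_v` kills `A.comap (up k E)`: if `up x ∈ A` then `x ≡ 1 mod N1`, so
`z ∈ Ray k N1`, `v(z) = 0`.  `Ψ_v` kills the norms: let `x = nu y`, let `y'` be near `y` at the primes above `v` and near `1` at the
other primes dividing `N2`, and totally positive; take `z = nu y'`; `prin z - v(z) v` is the norm of the part of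
`prin y'` prime to `N1`, so it is killed by `art ψ` (`S_NKer` (1)).  The map `Ψ = (Ψ_v) : kˣ → {±1}^B` is onto: `S_LC` with
`N = N2` gives `z_v` with `Ψ_v(z_v) ≠ 1` and `Ψ_{v'}(z_v) = 1` for `v' ≠ v` (choose `z = 1` for `x = z_v` at `v'`).  So its kernel has
index `2^#B`, contains `(nu k E).range ⊔ A.comap (up k E)`, and this has the same index by `S_LB`. -/
def S_LD : Prop := ∀ (k E : Type) [Field k] [NumberField k] [Field E] [NumberField E]
  [Algebra k E] [IsGalois k E] (σ : E ≃ₐ[k] E) (N1 N2 : ℕ) (A : Subgroup Eˣ) (ψ : (E ≃ₐ[k] E) →* ℂˣ),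
  finrank k E = 2 → VAData k E σ N1 N2 A → Function.Injective ψ → (∀ x ∈ Ray k N1, art ψ (prin x) = 0) →
  ∀ x : kˣ, (∀ v : HeightOneSpectrum (𝓞 k), (N1 : 𝓞 k) ∈ v.asIdeal → NonSplit E v →
    ∃ z : kˣ, Pos (z : k) ∧ CongAt {v}ᶜ N2 (z : k) ∧
      v.valuation k ((x : k) / (z : k) - 1) ≤ v.valuation k (N2 : k) ∧
      art ψ (prin z - Finsupp.single v (prin z v)) = 0) →
  x ∈ (nu k E).range ⊔ A.comap (up k E)

def J_LD : Prop := S_LA → S_LB → S_LC → S_LD

/-- JOB MZ-LE. Local norms at unramified primes.
Proof.  If `v` is not `NonSplit`, it splits completely (degree 2) and `S_NRM` applies.  Otherwise `prin x v = 2 j`; let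
`π ∈ kˣ` have `v(π) = 1`; `π^(2j) = nu (π^j)` and `x π^(-2j)` is a unit at `v`, and `S_NRM` (with `N` a large power of the
rational prime below `v`; first multiply by an element of `kˣ` near `1` at `v` to make `x` near `1` at the other primes
dividing `N`) applies again. -/
def S_LE : Prop := ∀ (k E : Type) [Field k] [NumberField k] [Field E] [NumberField E] [Algebra k E]
  [IsGalois k E] (v : HeightOneSpectrum (𝓞 k)) (x : kˣ), finrank k E = 2 → Unramified E v →
  (NonSplit E v → Even (prin x v)) → LocN E v x

/-- JOB MZ-LF. **The norm theorem of Hasse for quadratic extensions, one finite prime `w` omitted**.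
Proof.  `ψ` the injective character of the group of order two, `N0` from `recip` (`S_AR`) for `ψ` (every multiple is good,
too), `N1, N2, A` from `S_VA` for `N0` times the norm of all primes where `x` is not a unit and
which are ramified ... (only `N0 ∣ N1` is needed).  For `v ∣ N1` choose `z_v ∈ kˣ`: totally positive, near `x` at `v`
(`v(x/z_v - 1) ≥ v(N2)`), near `1` (mod `N2`) at the other primes dividing `N1`; `D_v = prin z_v - v(z_v) v`,
`a_v = art ψ D_v`.  If `v ≠ w` then `a_v = 0`: `LocN` gives `y ∈ Eˣ` with `x / nu y` near `1` at `v`; let `y'` be near `y` at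
the primes above `v`, near `1` at the other primes dividing `N1`, totally positive; compare `z_v` with `nu y'`: the
quotient is in `Ray k N1`, and `prin (nu y') - v(..) v` is the norm of a divisor prime to `N1` (`S_NKer` (1)).
(A prime that is not `NonSplit` has `LocN` for every `x`, also `w`: `E ⊗ k_w` is split; approximate.)
Product formula: `u = x / ∏_{v ∣ N1} z_v` is `≡ 1 mod N1` and positive at the ramified real places; multiply by a norm
`nu t`, `t ∈ Eˣ`, `t ≡ 1 mod N1`, to make it totally positive (at an unramified real place of `k` there are two real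
places of `E`; `S_Sgn` for `E`); `art ψ (prin (u nu t)) = 0`.  So `∑_v a_v = art ψ (part of prin x prime to N1)`.  At a
prime `v ∤ N1`, `v ≠ w` the element `x` is a local norm, so `prin x v` is even if `v` does not split, and
`art ψ (prin x v • v) = 0`.  If `w ∤ N1` this gives that `prin x w` is even or `w` splits; if `w ∣ N1` it gives `a_w = 0`.  In
both cases all `a_v = 0`, and `S_LD` gives `x = nu y * a`, `up a ∈ A`; `a` is positive at the ramified real places and
`prin a ∈ nmD (Pr E N1)` (even multiplicities at all primes `v ∤ N1` that do not split, anything at those that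
split, `0` at `v ∣ N1`), so `a = nu y'` by `S_LA`. -/
def S_LF : Prop := ∀ (k E : Type) [Field k] [NumberField k] [Field E] [NumberField E]
  [Algebra k E] [IsGalois k E] (w : HeightOneSpectrum (𝓞 k)) (x : kˣ), finrank k E = 2 →
  (∀ v : HeightOneSpectrum (𝓞 k), v ≠ w → LocN E v x) → PosRam E x → ∃ y : Eˣ, nu k E y = x

def J_LF : Prop := S_LA → S_LD → S_LF

/-! ## Part B: cocycles with values `±1` -/

section
variable {k L : Type} [Field k] [NumberField k] [Field L] [NumberField L] [Algebra k L]

/-- `g` is trivial on the subfield `E` -/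
def TrivOn (E : Type) [Field E] [Algebra E L] (g : L ≃ₐ[k] L) : Prop :=
  ∀ e : E, g (algebraMap E L e) = algebraMap E L e

open scoped Classical in
/-- `c` is, up to the coboundary of `b`, the cocycle of `x ∈ kˣ` for the quadratic extension `E/k` -/
def Rel (E : Type) [Field E] [Algebra E L] (c : (L ≃ₐ[k] L) → (L ≃ₐ[k] L) → ℤˣ) (x : kˣ)
    (b : (L ≃ₐ[k] L) → Lˣ) : Prop :=
  ∀ g h, (b g : L) * g (b h : L) = (b (g * h) : L) * (((c g h : ℤˣ) : ℤ) : L) *
    (if TrivOn E g ∨ TrivOn E h then 1 else algebraMap k L (x : k))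

end

/-- JOB MZ-QS. A cocycle that splits over a quadratic extension `E` comes from an element `x ∈ kˣ`.
Proof.  `H = Gal(L/E)` has index two in `G = Gal(L/k)`, let `t ∈ G` be outside `H`.  Extend `b0` to `G` by
`b(h) = b0(h)`, `b(h t) = b0(h) / c(h,t)`.. so that after dividing by the coboundary of `b` the new cocycle `c'`
(with values in `Lˣ`) satisfies `c'(h, h') = 1 = c'(h, t)` for `h, h' ∈ H`, hence `c'(h, g) = 1` for all `h ∈ H`,
`g ∈ G` (cocycle relation for `h, h', t`).  Then `c'(g, ·)`: the relation for `(h, g, j)` says `h c'(g, j) = c'(h g, j)`,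
and for `(g, h, j)`: `c'(g, h) c'(g h, j) = c'(g, h j)`.  So `f(h) = c'(t, h)` satisfies
`c'(t, h h') = c'(t, h) c'(t h, h')`, `t h = (t h t⁻¹) t`, `c'(t h, h') = (t h t⁻¹) c'(t, h')`: a `1`-cocycle of `H` (twisted by
conjugation by `t`), by Hilbert 90 `c'(t, h) = (t h t⁻¹)(u) / u`; changing `c'` by the coboundary of the function
`1` on `H`, `h(u)^{∓1}` on `h t` makes `c'(t, h) = 1` as well (and keeps `c'(h, g) = 1`).  Now `c'(g, j)` depends only on the
classes of `g`, `j` modulo `H`, is `H`-invariant, and `x = c'(t, t)` is fixed by `H` and by `t` (relation `(t,t,t)`). -/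
def S_QS : Prop := ∀ (k E L : Type) [Field k] [NumberField k] [Field E] [NumberField E] [Field L]
  [NumberField L] [Algebra k E] [Algebra k L] [Algebra E L] [IsScalarTower k E L] [IsGalois k L]
  (c : (L ≃ₐ[k] L) → (L ≃ₐ[k] L) → ℤˣ), finrank k E = 2 → Coc c →
  (∃ b0 : (L ≃ₐ[E] L) → Lˣ, ∀ g h, (b0 g : L) * g (b0 h : L) =
    (b0 (g * h) : L) * (((c (g.restrictScalars k) (h.restrictScalars k) : ℤˣ) : ℤ) : L)) →
  ∃ (x : kˣ) (b : (L ≃ₐ[k] L) → Lˣ), Rel E c x b

/-- JOB MZ-VE. `x` has even valuation at the unramified primes that do not split in `E`.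
Proof.  Let `P` be a prime of `L` above `v`, `φ` in its decomposition group, not trivial on `E` (exists, since `v` does not
split in `E`: the decomposition group acts transitively on the primes of `E` .. use that `E = k ⊕ k e` and if the
decomposition group `D` of `P` fixed `E`, then there would be `t ∈ G` with `t P ∩ E ≠ P ∩ E`, two primes of `E` above `v`;
or the library).  Let `f` be the order of `φ` (even).  Put `β(g) = P(b g) ∈ ℤ`.  `P` is fixed by `φ`, so
`Rel` for `(φ^j, φ)` gives `β(φ^j) + β(φ) = β(φ^{j+1}) + [j odd] P(x)`; sum over `0 ≤ j < f`: `f β(φ) = (f/2) P(x)`, and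
`P(x) = v(x)` since `P` is unramified.  So `v(x) = 2 β(φ)`. -/
def S_VE : Prop := ∀ (k E L : Type) [Field k] [NumberField k] [Field E] [NumberField E] [Field L]
  [NumberField L] [Algebra k E] [Algebra k L] [Algebra E L] [IsScalarTower k E L] [IsGalois k L]
  (c : (L ≃ₐ[k] L) → (L ≃ₐ[k] L) → ℤˣ) (x : kˣ) (b : (L ≃ₐ[k] L) → Lˣ) (v : HeightOneSpectrum (𝓞 k)),
  finrank k E = 2 → Rel E c x b → Unramified L v → NonSplit E v → Even (prin x v)

/-- JOB MZ-RP. Positivity of `x` at the ramified real places.
Proof.  Let `φ : k → ℝ` have no extension to `E`, `φ' : L → ℂ` an extension of `φ` (composed with `ℝ → ℂ`).  The complex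
conjugate of `φ'` is another extension, so it is `φ' ∘ σ`, `σ ∈ Gal(L/k)`, `σ² = 1`, `IsCC σ`, and `σ` is not trivial on `E`
(otherwise `φ'` is real on `E`).  `c σ σ = 1`, `c 1 1 = 1`, so `b 1 = 1` and `Rel` for `(σ, σ)` says `b_σ σ(b_σ) = x`, so
`φ(x) = |φ' (b_σ)|² > 0`. -/
def S_RP : Prop := ∀ (k E L : Type) [Field k] [NumberField k] [Field E] [NumberField E] [Field L]
  [NumberField L] [Algebra k E] [Algebra k L] [Algebra E L] [IsScalarTower k E L] [IsGalois k L]
  (c : (L ≃ₐ[k] L) → (L ≃ₐ[k] L) → ℤˣ) (x : kˣ) (b : (L ≃ₐ[k] L) → Lˣ),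
  Coc c → RealTriv c → Rel E c x b → PosRam E x

/-- JOB MZ-DL. `x` is a local norm at a prime where `c` is trivial on the decomposition group.
Proof.  Let `D = Dec k P` (a subgroup), `Z` the fixed field of `D` (an intermediate field), `z = P ∩ Z`; it has
`e = f = 1` over `v`, and `P` is the only prime above `z`.  Let `β g = b g / ε g` for `g ∈ D`:
`β g · g(β h) = β(g h) · (1 or x)`.  Some `t ∈ D` is not trivial on `E` (as `v` does not split in `E`).  On
`H = D ∩ Gal(L/E)`, `β` is a `1`-cocycle, so `β h = h(u)/u` (Hilbert 90 for `L/L^H`); replace `β g` by `β g u / g(u)`: now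
`β h = 1` for `h ∈ H`, so `β(t)` is fixed by `H`, i.e. in `ZE = L^H` (quadratic over `Z`), and `β(t) t(β(t)) = x`:
`x = Norm_{ZE/Z} β(t)`.  `ZE = Z ⊕ Z √a` if `E = k(√a)`, `β(t) = p + q √a`, `x = p² - a q²`, `p, q ∈ Z`.  Since `𝓞_Z / z^m = 𝓞_k / v^m`
(`e = f = 1`), there are `p', q' ∈ k` very near to `p, q` at `z`; `y = p' + q' √a ∈ E` has norm very near to `x` at `v`. -/
def S_DL : Prop := ∀ (k E L : Type) [Field k] [NumberField k] [Field E] [NumberField E] [Field L]
  [NumberField L] [Algebra k E] [Algebra k L] [Algebra E L] [IsScalarTower k E L] [IsGalois k L]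
  (c : (L ≃ₐ[k] L) → (L ≃ₐ[k] L) → ℤˣ) (x : kˣ) (b : (L ≃ₐ[k] L) → Lˣ) (P : HeightOneSpectrum (𝓞 L))
  (ε : (L ≃ₐ[k] L) → ℤˣ), finrank k E = 2 → Rel E c x b → NonSplit E (P.under (𝓞 k)) →
  (∀ g ∈ Dec k P, ∀ h ∈ Dec k P, ε g * ε h = ε (g * h) * c g h) → LocN E (P.under (𝓞 k)) x

/-- JOB MZ-EP. After adjoining enough roots of unity of `2`-power order, `c` is trivial at a given prime `v ∤ 2`,
unramified in `L`.
Proof.  Let `L(ζ) ⊆ M` be generated by a primitive `2^r`-th root of unity; `v` is unramified in `L(ζ)/k` (Galois).  The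
decomposition group of `P ∩ L(ζ)` in `Gal(L(ζ)/k)` is cyclic, generated by a Frobenius element `φ1`, of order `f1`; its
restriction `φ` to `L` has order `f`, a power of two.  `φ1 ζ = ζ^q`, `q` the norm of `v`, so if `r` is large
(`q^f ≢ 1 mod 2^r`, `q` is odd, `q > 1`) then `f1 > f`; `f1` is a power of `2` times.. in any case `f1` is the least common
multiple of `f` and the order of `q` modulo `2^r`, both powers of two, so `f1 / f` is even.  For `g ∈ Dec k P` the
restriction to `L(ζ)` is `φ1^i` with a unique `0 ≤ i < f1`; put `ε g = ∏_{j<i} c(φ^j, φ)`.  By the cocycle relation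
`c(φ^i, φ^j)` is the coboundary of `i ↦ ∏_{l<i} c(φ^l, φ)` (defined for all natural `i`), whose value at `i + f1`
is the one at `i` times `(∏_{l<f} c(φ^l, φ))^{f1/f} = 1`. -/
def S_EP : Prop := ∀ (k L : Type) [Field k] [NumberField k] [Field L] [NumberField L] [Algebra k L]
  [IsGalois k L] (c : (L ≃ₐ[k] L) → (L ≃ₐ[k] L) → ℤˣ) (v : HeightOneSpectrum (𝓞 k)), TwoPow k L → Coc c →
  Unramified L v → (2 : 𝓞 k) ∉ v.asIdeal → ∃ r : ℕ, ∀ (M : Type) [Field M] [NumberField M] [Algebra k M]
  [Algebra L M] [IsScalarTower k L M] [IsGalois k M] (ζ : M), IsPrimitiveRoot ζ (2 ^ r) →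
  ∀ P : HeightOneSpectrum (𝓞 M), P.under (𝓞 k) = v → ∃ ε : (M ≃ₐ[k] M) → ℤˣ,
  ∀ g ∈ Dec k P, ∀ h ∈ Dec k P,
    ε g * ε h = ε (g * h) * c (AlgEquiv.restrictNormal g L) (AlgEquiv.restrictNormal h L)

/-- JOB MZ-IN. Inflation is injective: a cocycle which splits in a larger field splits.
Proof.  `b' : Gal(M/k) → Mˣ` splits the inflated cocycle.  On `N = Gal(M/L)` the cocycle is `c 1 1 = 1`, so `b'` is a
`1`-cocycle of `N`, `b' n = n(u)/u` (Hilbert 90, Mathlib).  Replace `b' g` by `b' g u / g(u)`: then `b' n = 1`,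
`b'(g n) = b' g`, `b'(n g) = n(b' g)` (since `c(1,g) = c(g,1) = 1`), and `n g = g n'`; so `b' g` is in `L` and depends only
on the restriction of `g` to `L` (every automorphism of `L` is a restriction). -/
def S_IN : Prop := ∀ (k L M : Type) [Field k] [NumberField k] [Field L] [NumberField L] [Field M]
  [NumberField M] [Algebra k L] [Algebra k M] [Algebra L M] [IsScalarTower k L M] [IsGalois k L]
  [IsGalois k M] (c : (L ≃ₐ[k] L) → (L ≃ₐ[k] L) → ℤˣ), Coc c →
  SplitsIn (fun g h : M ≃ₐ[k] M => c (AlgEquiv.restrictNormal g L) (AlgEquiv.restrictNormal h L)) →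
  SplitsIn c

/-- JOB MZ-BC. Unramified primes in composita.
Proof.  A prime `v` is unramified in a Galois extension iff the inertia groups above it are trivial (`Unramified` of the
library, `Pool.Agent.Q280.AR`, `Pool.Agent.Q92.AR.rd_injective`, `Pool.Agent.Q20.EX.Inert`; or Mathlib).  An inertia element
of `M/F` at `P` restricts to an inertia element of `L/k` at `P ∩ 𝓞 L` (it satisfies `g x ≡ x mod P`), so it is trivial on `L`,
and on `F`.  In (2) an inertia element of `M/k` is trivial on `L` and on `F`; if `F/k` is not Galois use the inertia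
groups of the normal closure or restrict to the case here: `F/k` is Galois, too. -/
def S_BC : Prop := ∀ (k F L M : Type) [Field k] [NumberField k] [Field F] [NumberField F] [Field L]
  [NumberField L] [Field M] [NumberField M] [Algebra k F] [Algebra k L] [Algebra k M] [Algebra F M]
  [Algebra L M] [IsScalarTower k F M] [IsScalarTower k L M] [IsGalois k F] [IsGalois k L] [IsGalois k M],
  Gen2 k F L M → ∀ v : HeightOneSpectrum (𝓞 k), Unramified L v →
  (∀ w : HeightOneSpectrum (𝓞 F), w.under (𝓞 k) = v → Unramified M w) ∧ (Unramified F v → Unramified M v)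

/-- JOB MZ-KP. A quadratic extension `F = k(√a)` which makes the decomposition group smaller.
Proof.  Let `D = Dec k P ≠ 1`, a `2`-group, `D1 ⊂ D` a subgroup of index two, `Z = L^D`, `Z1 = L^{D1} = Z(√α)`, `α ∈ Zˣ`,
`z = P ∩ Z`, with `e = f = 1` over `w`.  Choose `a ∈ kˣ` with `z(a/α - 1) ≥ m` (additive valuation) for a large `m`
(possible since `𝓞_Z / z^j = 𝓞_k / w^j`), large compared with `v(4)`.  `M = L(√a)`, `F = k(√a)` (splitting field of
`X² - a` over `L`; take an algebraic closure of `L` and intermediate fields).  `u = √a / √α ∈ M`, `u² = a/α`,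
`(u - 1)(u + 1) = a/α - 1`; let `Q` be a prime of `M` above `P`; after changing the sign of `√a` we have `Q(u - 1)` large.
Let `g` be in the decomposition group of `Q` in `Gal(M/k)`; `g|L ∈ D`.  `g` fixes `Z` and `α ∈ Z`, `a ∈ k`, so `g u = ± u`, and
`g u ≡ 1 mod` a high power of `g Q = Q`, while `- u ≡ - 1`; so `g u = u`, that is `g √a = √a ⟺ g √α = √α ⟺ g|L ∈ D1`.
If `M ≠ L` the nontrivial element of `Gal(M/L)` maps `u` to `-u`, so it is not in the decomposition group of `Q`; so
restriction `Dec(Q) → D` is injective, and it is onto (transitivity on the primes above `P`).  Hence `a` is not a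
square in `k` and `w` does not split in `F` (an element of `Dec(Q)` moves `√a`), and the decomposition group of `Q` over
`F` has the order of `D1`. -/
def S_KP : Prop := ∀ (k L : Type) [Field k] [NumberField k] [Field L] [NumberField L] [Algebra k L]
  [IsGalois k L] (P : HeightOneSpectrum (𝓞 L)), TwoPow k L → (∃ g ∈ Dec k P, g ≠ 1) →
  ∃ (F M : Type) (_ : Field F) (_ : NumberField F) (_ : Field M) (_ : NumberField M) (_ : Algebra k F)
    (_ : Algebra k M) (_ : Algebra F M) (_ : Algebra L M) (_ : IsScalarTower k F M)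
    (_ : IsScalarTower k L M) (_ : IsGalois k F) (_ : IsGalois k M) (Q : HeightOneSpectrum (𝓞 M)),
    finrank k F = 2 ∧ TwoPow k M ∧ Gen2 k F L M ∧ NonSplit F (P.under (𝓞 k)) ∧ Q.under (𝓞 L) = P ∧
    Nat.card (Dec F Q) < Nat.card (Dec k P)

/-- JOB MZ-AL. Unramified extensions (at the finite primes).
Proof.  Induction on `[L : k]` (for all `k`, `L`, `c`).  `L = k`: `c = 1`.  Otherwise there is a subfield `E` quadratic over
`k` (subgroup of index two of a `2`-group; an intermediate field).  `L/E` is unramified at all finite primes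
(`S_FR` (3)), the restriction of `c` to `Gal(L/E)` is a cocycle trivial at the real places, and by induction it
splits.  `S_QS` gives `x`, `b`; `S_VE`, `S_LE` give `LocN E v x` at all `v`, `S_RP` the positivity, so `x = nu y`, `y ∈ Eˣ`, by
`S_LF` (any `w`).  Replace `b g` by `b g` for `g` trivial on `E`, `b g / y` for the others: `Rel` becomes `SplitsIn`
(`y · g(y)`.. check: for `g, h` both nontrivial on `E` the left side is divided by `y g(y) = nu y = x`). -/
def S_AL : Prop := ∀ (k L : Type) [Field k] [NumberField k] [Field L]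
  [NumberField L] [Algebra k L] [IsGalois k L] (c : (L ≃ₐ[k] L) → (L ≃ₐ[k] L) → ℤˣ), TwoPow k L →
  (∀ v : HeightOneSpectrum (𝓞 k), Unramified L v) → Coc c → RealTriv c → SplitsIn c

def J_AL : Prop := S_LF → S_LE → S_QS → S_VE → S_RP → S_AL

/-- JOB MZ-BE. **Cocycles that are trivial at the real places split**, if `k` has only one prime `w` above `2` and `L/k` is
unramified outside `2`.
Proof.  Induction on the order of the decomposition group of a prime `P` of `L` above `w` (for all `k`, `L`, `c`).
If it is trivial then `w` is unramified in `L` (inertia is contained in the decomposition group), and `S_AL`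
applies.  Otherwise take `F, M, Q` from `S_KP`.  `w` does not split in `F`, so `F` has one prime above `2`; `M/F` is
unramified outside `2` (`S_BC`), the inflation `c'` of `c` to `Gal(M/k)`, restricted to `Gal(M/F)`, is a cocycle trivial
at the real places (a complex conjugation of `M` restricts to one of `L`), and by induction it splits.  `S_QS` (for
`k, F, M`, `c'`) gives `x`, `b` with `Rel F c' x b`.  We claim `LocN F v x` for all `v ≠ w`, `PosRam F x` (`S_RP`), so `S_LF`
gives `x = nu y`, so `c'` splits (as in `S_AL`) and `c` splits by `S_IN`.  Let `v ≠ w`.  If `v` is unramified in `F` it is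
unramified in `M` (`S_BC`), so `S_VE`, `S_LE` apply.  Let `v` be ramified in `F`, so `NonSplit F v`, `v ∤ 2`.
Take `r` from `S_EP` for `c`, `v`, and `M' = M(ζ)`, `ζ` of order `2^r` (`CyclotomicField (2^r) M`, Galois over `k`);
inflate `Rel` to `M'` (compose `b` with the restriction) and use `S_DL` with the `ε` of `S_EP` (the double inflation of `c`
is `c ∘` restriction to `L`). -/
def S_BE : Prop := ∀ (k L : Type) [Field k] [NumberField k] [Field L] [NumberField L] [Algebra k L] [IsGalois k L]
  (c : (L ≃ₐ[k] L) → (L ≃ₐ[k] L) → ℤˣ), TwoPow k L → OneDyadic k → TwoUnram k L → Coc c → RealTriv c →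
  SplitsIn c

def J_BE : Prop := S_LF → S_LE → S_QS → S_VE → S_RP → S_DL → S_EP → S_IN → S_BC → S_KP → S_AL → S_BE

end Pool.Agent.Q5.MZ
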