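import Pool.Agent.Q5.MZ.Stm

/-!
# Project MZ (helper5), part C: embedding problems

`K/ℚ` is a Galois extension of odd degree with one prime above `2` and odd class number, `E/K` a `2`-extension
unramified outside `2`, Galois over `ℚ`.  The goal is `S_EM`: an embedding problem for `E/ℚ` whose kernel `V` has
exponent two and is centralized by the preimage of `Gal(E/K)` has a solution in a field of the same kind, if
the complex conjugations can be lifted to elements of order two (or one).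
`restrictNormal`, `restrictNormalHom`: Mathlib.  `IsGalois K E` follows from `IsGalois ℚ E`
(`IsGalois.tower_top_of_isGalois`); `IsScalarTower ℚ K E` is an instance.
-/

set_option autoImplicit false
set_option linter.unusedSectionVars false

namespace Pool.Agent.Q5.MZ

open NumberField IsDedekindDomain Module
open Pool.Agent.Q92.AR (Dv prin Pr Ray RayD art nmD nu up puD Cong Pos frob IsFrobenius Unramified Ram SupF)
open Pool.Agent.TeamU (act)

/-- JOB MZ-GM. The element `y` of a splitting.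
Proof.  Let `b` split `c`.  The squares `b g ^ 2` form a `1`-cocycle with values in `Lˣ` (`c g h = ± 1`), so
by Hilbert 90 (Mathlib: `groupCohomology.isMulCoboundary₁_of_isMulCocycle₁_of_aut_to_units`) `b g ^ 2 = g(y)/y` with `y ∈ Lˣ`.
At the primes `w ∤ 2` of `L` the parity of `prin y w` only depends on `v = w.under`: `prin (g y) = prin y + 2 prin (b g)`
and `Gal(L/k)` acts transitively on the primes above `v`.  Let `D` be a divisor of `k` with `D v ≡ prin y w mod 2` for
`w` above `v ∤ 2` (finite support).  By `OddClass` `D v = 2 D' v + prin a v` for `v ∤ 2`, `a ∈ kˣ`.  As `w` is unramified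
over `v`, `prin (up a) w = prin a v`.  Replace `y` by `y / a`: `g(y/a) = (y/a) (b g)^2`, and its valuations outside `2`
are even. -/
def S_GM : Prop := ∀ (k L : Type) [Field k] [NumberField k] [Field L] [NumberField L] [Algebra k L]
  [IsGalois k L] (c : (L ≃ₐ[k] L) → (L ≃ₐ[k] L) → ℤˣ), OddClass k → TwoUnram k L → SplitsIn c →
  ∃ (b : (L ≃ₐ[k] L) → Lˣ) (y : Lˣ),
    (∀ g h, (b g : L) * g (b h : L) = (b (g * h) : L) * (((c g h : ℤˣ) : ℤ) : L)) ∧
    (∀ g : L ≃ₐ[k] L, g (y : L) = (y : L) * (b g : L) ^ 2) ∧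
    ∀ w : HeightOneSpectrum (𝓞 L), (2 : 𝓞 L) ∉ w.asIdeal → Even (prin y w)

/-- JOB MZ-KU. Adjoining square roots of elements with even valuations outside `2`.
Proof.  `E' = E(√(g t) : t ∈ T, g ∈ Gal(E/ℚ))`, the splitting field over `E` of `∏_{t, g} (X² - g t)`, a polynomial
with coefficients in `ℚ`, so `E'/ℚ` is Galois (a splitting field of it times a polynomial with splitting field `E`).
`Gal(E'/E)` has exponent two (`τ √u = ± √u`), so `[E' : E]` is a power of two.  Let `w ∤ 2` be a prime of `E`, `w'` above `w`,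
`τ ∈ Gal(E'/E)` in the inertia group of `w'` (`τ x - x ∈ w'` for all integers `x`).  `u = g t` has even valuation at `w`
(`g` permutes the primes not above `2`), so `u = a² ε` with `a ∈ Eˣ`, `ε` a unit at `w`, may be chosen `ε ∈ 𝓞 E` with a square root
`e = √u / a` integral at `w'` and not in `w'`; `τ e = ± e`, and `τ e = - e` would give `2 e ∈ w'` (multiply by an integer of `E`
which is a unit at `w` to make `e` integral).  So `τ = 1` and `w` is unramified in `E'`, and so is `v ∤ 2` of `K`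
(ramification indices are multiplicative; library `S_FR`, `Pool.Agent.Q225.AR.fr`). -/
def S_KU : Prop := ∀ (K E : Type) [Field K] [NumberField K] [Field E] [NumberField E] [Algebra K E]
  [IsGalois ℚ K] [IsGalois ℚ E] (T : Finset Eˣ), TwoPow K E → TwoUnram K E →
  (∀ t ∈ T, ∀ w : HeightOneSpectrum (𝓞 E), (2 : 𝓞 E) ∉ w.asIdeal → Even (prin t w)) →
  ∃ (E' : Type) (_ : Field E') (_ : NumberField E') (_ : Algebra K E') (_ : Algebra E E')
    (_ : IsScalarTower K E E'), IsGalois ℚ E' ∧ TwoPow K E' ∧ TwoUnram K E' ∧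
    ∀ t ∈ T, ∃ s : E', s ^ 2 = algebraMap E E' (t : E)

/-- JOB MZ-GA. A group extension with abelian kernel of exponent two splits if it splits over a subgroup `H`
of odd index (Gaschütz).
Proof.  `V = ker π`.  Choose a set `R` of representatives of the cosets `H g`, `1 ∈ R`, and lifts `q(r)` of `r ∈ R`, and for
`g = h r` put `q(g) = s(h) q(r)`.  So `π (q g) = g`, `q(h g) = s(h) q(g)` for `h ∈ H`.  Put `q(g) q(g') = F(g, g') q(g g')`,
`F(g, g') ∈ V`; write `^x v = q(x) v q(x)⁻¹` (it depends only on `x ∈ G`, as `V` is commutative).  Associativity: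
`F(g, g') F(g g', g'') = ^g F(g', g'') F(g, g' g'')`.  `F(h, g) = 1` and so `F(h g, g') = ^h F(g, g')` for `h ∈ H`.  Hence
`b(g') = ∏_{g ∈ R} ^(g⁻¹) F(g, g')` does not change if `R` is replaced by another set of representatives.  Apply
`^(g⁻¹)` to the relation and multiply over `g ∈ R`: `b(g') · ^g' b(g'') = F(g', g'')^m b(g' g'')`, `m` the (odd) index
(`^(g⁻¹) F(g g', g'') = ^g' (^((g g')⁻¹) F(g g', g''))`, and `R g'` is a set of representatives), so
`F(g', g'') = b(g') ^g' b(g'') b(g' g'')⁻¹`, and `t(g) = b(g)⁻¹ q(g)` is a homomorphism. -/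
def S_GA : Prop := ∀ (G X : Type) [Group G] [Group X] [Finite G] [Finite X] (π : X →* G) (H : Subgroup G)
  (s : H →* X), Function.Surjective π → (∀ x ∈ π.ker, x ^ 2 = 1) →
  (∀ x ∈ π.ker, ∀ y ∈ π.ker, x * y = y * x) → Odd H.index → (∀ h : H, π (s h) = h) →
  ∃ t : G →* X, ∀ g, π (t g) = g

/-- JOB MZ-GB. An equivariant homomorphism on a normal subgroup `H` of odd index extends to a `1`-cocycle.
Proof.  Choose a set `R` of representatives of `G/H = H\G`, `1 ∈ R`, and put `a0(h r) = f(h)`; so `a0(h g) = f(h) + a0(g)`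
for all `h ∈ H`, `g ∈ G`.  Let `z(g, g') = a0(g) + ρ g (a0 g') - a0(g g')`.  It depends only on the cosets of `g`, `g'`
(`H` acts trivially on `V`; `a0(g h) = a0((g h g⁻¹) g) = ρ g (f h) + a0(g)` by equivariance) and
`z(g, g') + z(g g', g'') = ρ g (z(g', g'')) + z(g, g' g'')`.  Apply `ρ g⁻¹` and sum over `g ∈ R`: with
`b(g') = ∑_{g ∈ R} ρ g⁻¹ (z(g, g'))` one gets `b(g') + ρ g' (b g'') = m z(g', g'') + b(g' g'')`, `m` odd, `2 V = 0`.  So
`a = a0 - b` is a cocycle, and `b(h) = b(1) = ∑ ρ g⁻¹ z(g, 1) = 0` since `z(g, 1) = ρ g (a0 1) = 0`. -/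
def S_GB : Prop := ∀ (G V : Type) [Group G] [AddCommGroup V] [Finite G] (H : Subgroup G)
  (ρ : G →* AddMonoid.End V) (f : H → V), H.Normal → Odd H.index → (∀ v : V, v + v = 0) → (∀ h ∈ H, ρ h = 1) →
  (∀ h h' : H, f (h * h') = f h + f h') →
  (∀ (g : G) (h h' : H), (h' : G) = g * h * g⁻¹ → f h' = ρ g (f h)) →
  ∃ a : G → V, (∀ g g', a (g * g') = a g + ρ g (a g')) ∧ ∀ h : H, a h = f h

/-- JOB MZ-EM. **Solution of embedding problems**.
Proof.  `V = ker π`, an `𝔽₂`-vector space (exponent two implies commutative) of some dimension `r`; `H = Gal(E/K)`, embedded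
in `Gal(E/ℚ)` by `restrictScalars ℚ`.  Choose `s : H → X` with `π (s h) = h`, `s 1 = 1`, and put
`s(g) s(h) = z(g, h) s(g h)`, `z(g, h) ∈ V`.  `V` is centralized by the `s(g)`, so `z` is a normalized cocycle for the trivial
action.  Let `λ_1, .., λ_r : V → ℤˣ` be a basis of the characters of `V`, `c_i = λ_i ∘ z : H × H → ℤˣ` (`Coc`).  If `σ ∈ H` is a
complex conjugation, then there is `x ∈ X` with `π x = σ`, `x² = 1`; `s(σ) = x v`, `v ∈ V` commutes with `x`, so
`z(σ, σ) = s(σ)² = x² v² = 1`: `RealTriv c_i`.  `S_BE` and `S_GM` (for `E/K`) give `b_i`, `y_i`; apply `S_KU` to `T = {y_1, .., y_r}`: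
`E'`, and `s_i ∈ E'` with `s_i² = y_i`.  For `τ ∈ Gal(E'/K)` with restriction `g` to `E`: `(τ s_i)² = g(y_i) = y_i (b_i g)²`, so
`τ s_i = ε_i(τ) b_i(g) s_i`, `ε_i(τ) = ± 1`, and `ε_i(τ τ') = ε_i(τ) ε_i(τ') c_i(g, g')`.  Let `v(τ) ∈ V` be the element with
`λ_i(v(τ)) = ε_i(τ)`.  Then `ψ0(τ) = v(τ) s(τ|E)` satisfies `ψ0(τ) ψ0(τ') = v(τ) v(τ') z(g, g') s(g g') = ψ0(τ τ')`.
Now let `G' = Gal(E'/ℚ)`, `H' = Gal(E'/K)` (index `[K : ℚ]`, odd), `X' = {(x, g) ∈ X × G' : π x = g|E}` → `G'`, surjective, with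
kernel `V`, and the homomorphism `τ ↦ (ψ0(τ), τ)` over `H'`.  `S_GA` gives a homomorphism `G' → X'`; `ψ` is its first
component. -/
def S_EM : Prop := ∀ (K E : Type) [Field K] [NumberField K] [Field E] [NumberField E] [Algebra K E]
  [IsGalois ℚ K] [IsGalois ℚ E] (X : Type) [Group X] [Finite X] (π : X →* (E ≃ₐ[ℚ] E)),
  Odd (finrank ℚ K) → OneDyadic K → OddClass K → TwoPow K E → TwoUnram K E → Function.Surjective π →
  (∀ x ∈ π.ker, x ^ 2 = 1) →
  (∀ x ∈ π.ker, ∀ y : X, (∀ a : K, π y (algebraMap K E a) = algebraMap K E a) → x * y = y * x) →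
  (∀ σ : E ≃ₐ[ℚ] E, IsCC σ → ∃ x : X, π x = σ ∧ x ^ 2 = 1) →
  ∃ (E' : Type) (_ : Field E') (_ : NumberField E') (_ : Algebra K E') (_ : Algebra E E')
    (_ : IsScalarTower K E E'), IsGalois ℚ E' ∧ TwoPow K E' ∧ TwoUnram K E' ∧
    ∃ ψ : (E' ≃ₐ[ℚ] E') →* X, ∀ g, π (ψ g) = AlgEquiv.restrictNormal g E

def J_EM : Prop := S_BE → S_GM → S_KU → S_GA → S_EM

end Pool.Agent.Q5.MZ
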