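import Pool.Agent.Q5.MZ.Dfm

/-!
# Project MZ (helper5), part E: the dimension of deformation rings, abstract part

`G` is a topological group, `ρ̄ : G → GL₃(𝔽₂)`, `c ∈ G` an involution with `ρ̄(c) = 1`, `Kr` a normal subgroup.  If all
embedding problems given by small extensions `B → A` have solutions trivial on `Kr` as soon as `c` can be lifted to an
involution, and there are `2^9` essentially different lifts to the dual numbers, then every universal deformation ring
`R` satisfies `dim R/2R ≥ 2` (`S_ABS`).  No power series rings are needed: only polynomial rings over `𝔽₂`.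
-/

set_option autoImplicit false
set_option linter.unusedSectionVars false

namespace Pool.Agent.Q5.MZ

open IsLocalRing

/-- `e` is a minimal system of generators of the maximal ideal (modulo its square); the residue field is `𝔽₂` -/
structure MinGen (A : Type) [CommRing A] [IsLocalRing A] [Algebra (ZMod 2) A] {h : ℕ} (e : Fin h → A) : Prop where
  res : ∀ a : A, a ∈ maximalIdeal A ∨ a - 1 ∈ maximalIdeal A
  mem : ∀ i, e i ∈ maximalIdeal A
  gen : ∀ a ∈ maximalIdeal A, ∃ c : Fin h → ZMod 2, a - ∑ i, algebraMap (ZMod 2) A (c i) * e i ∈ (maximalIdeal A) ^ 2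
  ind : ∀ c : Fin h → ZMod 2, ∑ i, algebraMap (ZMod 2) A (c i) * e i ∈ (maximalIdeal A) ^ 2 → c = 0

/-- the ideal of the polynomials without constant term -/
noncomputable def idn (h : ℕ) : Ideal (MvPolynomial (Fin h) (ZMod 2)) := RingHom.ker (MvPolynomial.constantCoeff (σ := Fin h) (R := ZMod 2))

/-- the lifting property: every small extension of `A/m^N` in which `M` lifts to a matrix with square zero is dominated
by `A` -/
def LP (A : Type) [CommRing A] [IsLocalRing A] (M : Matrix (Fin 3) (Fin 3) A) : Prop :=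
  ∀ (N : ℕ) (B : Type) [CommRing B] (q : B →+* A ⧸ (maximalIdeal A) ^ N), 2 ≤ N → Finite B → IsLocalRing B →
    (2 : B) = 0 → Function.Surjective q → Nat.card (RingHom.ker q) = 2 →
    ∀ X : Matrix (Fin 3) (Fin 3) B, X.map q = M.map (Ideal.Quotient.mk ((maximalIdeal A) ^ N)) → X * X = 0 →
    ∃ α : A →+* B, q.comp α = Ideal.Quotient.mk ((maximalIdeal A) ^ N)

/-- JOB MZ-RG. Seven equations cannot cut `h ≥ 9` variables down to dimension one.
Proof.  `T = 𝔽₂[x_1, .., x_h]`, `n = idn h`, `φ = aeval e : T → A`.  Suppose `dim A ≤ 1`.  There is `t ∈ m` and `k ≥ 1` with `m^k ⊆ (t)`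
(Mathlib: for the maximal ideal, of height `dim A ≤ 1`, there is an ideal `J ≤ m` with at most one generator and of
the same height, `Ideal.exists_spanRank_le_and_le_height_of_le_height` or similar; so `m` is minimal over `J` and `m^k ⊆ J` since
`A` is Noetherian).  Put `N = k + 1` and take the `s_i` of the hypothesis.  There is `t' ∈ n` with `φ(t') - t ∈ m^N` (`φ` is
surjective modulo `m^N` by `MinGen.gen`, induction on `N`; `t ∈ m`).  Claim: `n^k ⊆ a + n^N`, `a = (t', s_1, .., s_7)`: for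
`F ∈ n^k`, `φ(F) ∈ m^k ⊆ (t)`, `φ(F) = t b`, `b ≡ φ(b')`, so `φ(F - t' b') ∈ m^N` and the hypothesis gives
`F - t' b' ∈ (s_1, .., s_7) + n^N`.  So `n^k ⊆ a + n n^k`, and by Nakayama in the localization of `T` at `n` (or: there is `u ∈ T`, `u ∉ n`
with `u n^k ⊆ a`) `n` is a minimal prime over `a`, an ideal with 8 generators, so the height of `n` is at most 8 (Krull,
`Ideal.height_le_spanRank_toENat` or `Ideal.height_le_spanFinrank`).  But the height of `n` is at least `h ≥ 9`: the chain of the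
prime ideals `(x_1, .., x_i)` (`i = 0, .., h`) (quotients are polynomial rings; Mathlib may know the height). -/
def S_RG : Prop := ∀ (A : Type) [CommRing A] [IsLocalRing A] [IsNoetherianRing A] [Algebra (ZMod 2) A] (h : ℕ)
  (e : Fin h → A), MinGen A e → 9 ≤ h →
  (∀ N : ℕ, 2 ≤ N → ∃ s : Fin 7 → MvPolynomial (Fin h) (ZMod 2), (∀ i, s i ∈ idn h) ∧
    ∀ F : MvPolynomial (Fin h) (ZMod 2), MvPolynomial.aeval e F ∈ (maximalIdeal A) ^ N →
      F ∈ Ideal.span (Set.range s) ⊔ (idn h) ^ N) → 2 ≤ ringKrullDim A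

/-- JOB MZ-KY. The relations are generated by the entries of `M²`.
Proof.  `T = 𝔽₂[x_1, .., x_h]`, `n = idn h`, `φ = aeval e : T → A`, surjective modulo every `m^N` (`MinGen`).  Let `N ≥ 2`,
`J = φ⁻¹(m^N)`.  (1) `n^N ⊆ J ⊆ n²`: if `φ(F) ∈ m²`, `F = a_0 + ∑ a_i x_i + (n²)`, then `a_0 = 0` and `a_i = 0` by `MinGen.ind`.
(2) Choose a matrix `M'` over `T` with `φ(M') ≡ M mod m^N`, entries in `n`; let `I1` be the ideal generated by the entries
of `M' M'` and by `n^N`; `I1 ⊆ J`, because `M M = 0`.  Claim: `J = I1`.  Otherwise (`T/I1` is finite) there is an ideal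
`I1 ⊆ I ⊂ J`, `I ≠ J`, maximal among the ideals strictly contained in `J`; `J/I` is a simple `T`-module killed by some power of
`n`, so `J/I ≅ T/n` has two elements and `n J ⊆ I`.  `B = T/I` is a finite local ring, `2 = 0`, `q : B → T/J ≅ A/m^N` is
surjective with kernel of order two, and `X = M' mod I` satisfies `X X = 0`, `q X = M`.  `LP` gives `α : A → B` with
`q ∘ α = ` the canonical map.  Let `α' = α ∘ φ`, `β : T → B` the canonical map.  `q ∘ α' = q ∘ β`, so `α'(x_i) - β(x_i) ∈ J/I`, which is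
killed by the maximal ideal of `B`; both maps send `n` to the maximal ideal (`α` is local: `α(m)` consists of
nonunits, as `q α` does), so `α'(x y) = β(x y)` for `x, y ∈ n`: `α'(x y) - β(x y) = α'(x)(α'(y) - β(y)) + (α'(x) - β(x)) β(y) = 0`.
Hence `α' = β` on `n² ⊇ J`.  Next `α(m^N) = 0`: `α(m^{N'}) = 0` for some `N' ≥ N` (`B` is finite local), every `a ∈ m^N` is
`φ(G) + r` with `G ∈ n^N`, `r ∈ m^{N'}` (`m = φ(n) + m^{N'}`), and `α(φ(G)) = β(G) = 0` since `G ∈ n^N ⊆ n²` and `n^N ⊆ I1 ⊆ I`.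
So for `F ∈ J`: `φ(F) ∈ m^N` and `β(F) = α(φ(F)) = 0`, `F ∈ I`.  Contradiction to `I ≠ J`.
(3) Let `s` be the 7 entries of `M'` at the positions different from `(0, 2)` and `(1, 2)`.  All entries of `M' M'` are in the
ideal generated by them: every product `M'_{ik} M'_{kj}` contains one of them (if `(i,k)` and `(k,j)` are both in
`{(0,2), (1,2)}` then `k = 2` and `k ∈ {0, 1}`).  So `J = I1 ⊆ (s) + n^N`. -/
def S_KY : Prop := ∀ (A : Type) [CommRing A] [IsLocalRing A] [IsNoetherianRing A] [Algebra (ZMod 2) A] (h : ℕ)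
  (e : Fin h → A) (M : Matrix (Fin 3) (Fin 3) A), MinGen A e → (∀ i j, M i j ∈ maximalIdeal A) → M * M = 0 →
  LP A M →
  ∀ N : ℕ, 2 ≤ N → ∃ s : Fin 7 → MvPolynomial (Fin h) (ZMod 2), (∀ i, s i ∈ idn h) ∧
    ∀ F : MvPolynomial (Fin h) (ZMod 2), MvPolynomial.aeval e F ∈ (maximalIdeal A) ^ N →
      F ∈ Ideal.span (Set.range s) ⊔ (idn h) ^ N

/-- JOB MZ-CT. Counting homomorphisms to the dual numbers.
Proof.  `m/m²` is a finite dimensional vector space over the residue field, which has two elements; let `h` be its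
dimension and `e_1, .., e_h ∈ m` lifts of a basis (`MinGen`).  A ring homomorphism `α : A → 𝔽₂[ε]` maps `m` to `(ε)` and `m²` to
`0`, and every element of `A` is `0` or `1` plus an element of `m`, so `α` is determined by `(α(e_1), .., α(e_h)) ∈ (ε)^h`, a set
with `2^h` elements.  So `512 ≤ 2^h`. -/
def S_CT : Prop := ∀ (A : Type) [CommRing A] [IsLocalRing A] [IsNoetherianRing A] [Algebra (ZMod 2) A]
  (α : Fin 512 → (A →+* DualNumber (ZMod 2))), (∀ a : A, a ∈ maximalIdeal A ∨ a - 1 ∈ maximalIdeal A) →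
  Function.Injective α → ∃ (h : ℕ) (e : Fin h → A), 9 ≤ h ∧ MinGen A e

/-- JOB MZ-RT. Assembly of the ring theoretic part. -/
def S_RT : Prop := ∀ (A : Type) [CommRing A] [IsLocalRing A] [IsNoetherianRing A] [Algebra (ZMod 2) A]
  (M : Matrix (Fin 3) (Fin 3) A) (α : Fin 512 → (A →+* DualNumber (ZMod 2))),
  (∀ a : A, a ∈ maximalIdeal A ∨ a - 1 ∈ maximalIdeal A) → (∀ i j, M i j ∈ maximalIdeal A) → M * M = 0 →
  LP A M → Function.Injective α → 2 ≤ ringKrullDim A

def J_RT : Prop := S_RG → S_KY → S_CT → S_RT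

section
variable {G : Type} [Group G] [TopologicalSpace G]

/-- solvability of the small embedding problems -/
def HL (rbar : G →* GL (Fin 3) (ZMod 2)) (Kr : Subgroup G) (c : G) : Prop :=
  ∀ (A B : Type) [CommRing A] [CommRing B] (redA : A →+* ZMod 2) (q : B →+* A) (rA : G →* GL (Fin 3) A)
    (x : GL (Fin 3) B), Finite B → IsLocalRing B → (2 : B) = 0 → Function.Surjective q →
    Nat.card (RingHom.ker q) = 2 → Nontrivial A →
    IsOpen ((rA.ker : Subgroup G) : Set G) → (∀ g, Matrix.GeneralLinearGroup.map redA (rA g) = rbar g) →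
    (∀ g ∈ Kr, rA g = 1) → Matrix.GeneralLinearGroup.map q x = rA c → x ^ 2 = 1 →
    ∃ rB : G →* GL (Fin 3) B, IsOpen ((rB.ker : Subgroup G) : Set G) ∧ (∀ g ∈ Kr, rB g = 1) ∧
      ∀ g, Matrix.GeneralLinearGroup.map q (rB g) = rA g

/-- the projection of the dual numbers -/
noncomputable def dfst : DualNumber (ZMod 2) →+* ZMod 2 :=
  (TrivSqZeroExt.fstHom (ZMod 2) (ZMod 2) (ZMod 2)).toRingHom

/-- many lifts to the dual numbers -/
def HT (rbar : G →* GL (Fin 3) (ZMod 2)) (Kr : Subgroup G) : Prop :=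
  ∃ r : Fin 512 → (G →* GL (Fin 3) (DualNumber (ZMod 2))),
    (∀ i, IsOpen (((r i).ker : Subgroup G) : Set G)) ∧ (∀ i, ∀ g ∈ Kr, r i g = 1) ∧
    (∀ i g, Matrix.GeneralLinearGroup.map dfst (r i g) = rbar g) ∧
    ∀ i j, i ≠ j → ∃ g, rbar g = 1 ∧ r i g ≠ r j g

end

/-- JOB MZ-ABS. **The dimension of the universal deformation ring**.
Proof.  `𝔞 ⊆ R` the ideal generated by `2` and the entries of `ru(g) - 1`, `g ∈ Kr`; `𝔞 ⊆ m_R = ker redR` (`ρ̄(g) = 1` on `Kr`).
`A = R/𝔞` is a Noetherian local ring, an `𝔽₂`-algebra, with residue field `𝔽₂`; `M = ru(c) - 1` over `A`: entries in `m`,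
`(1 + M)² = 1`, so `M M = 0` (`2 = 0`).
(LP) Let `N ≥ 2`, `B`, `q`, `X` be as in `LP`.  `A/m^N` is finite (as an image of `B`) and the image `rA` of `ru` in it has
open kernel (continuity of `ru`) and is trivial on `Kr`.  `x = 1 + X`, `x² = 1 + X X = 1`, is a unit.  `HL` gives
`rB : G → GL₃(B)`.  `B` is a `W(𝔽₂)`-algebra through `W(𝔽₂) → 𝔽₂ → B` and `CNL` (the maximal ideal is nilpotent; residue field
`𝔽₂`, via `q`), `rB` is a lift of `ρ̄`.  Universality: `f : R → B` with `f(ru)` strictly equivalent to `rB`; as `rB = 1` on `Kr`,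
`f(ru(g)) = 1` for `g ∈ Kr`, so `f` kills `𝔞`: `α : A → B`.  `q ∘ f` and the canonical map `R → A/m^N` both transform `ru` into a lift
strictly equivalent to `rA`, so they are equal by uniqueness (`A/m^N` is `CNL`, too).
(512) The `r i` of `HT` are lifts to `𝔽₂[ε]`, a `CNL` ring, trivial on `Kr`, so they give `f_i : R → 𝔽₂[ε]`, killing `𝔞`, `α_i : A → 𝔽₂[ε]`.
If `α_i = α_j` then `r i`, `r j` are strictly equivalent: `r j g = u (r i g) u⁻¹`, `u ≡ 1 mod ε`.  If `ρ̄(g) = 1` then `r i g ≡ 1 mod ε`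
commutes with `u` (`ε² = 0`), so `r j g = r i g`; contradiction to the last property in `HT` if `i ≠ j`.
So `S_RT` gives `2 ≤ dim A`, and `R/2R → A` is surjective (`ringKrullDim_le_of_surjective`). -/
def S_ABS : Prop := ∀ (G : Type) [Group G] [TopologicalSpace G] [IsTopologicalGroup G]
  (rbar : G →* GL (Fin 3) (ZMod 2)) (Kr : Subgroup G) (c : G), (∀ g ∈ Kr, rbar g = 1) → c ^ 2 = 1 → rbar c = 1 →
  HL rbar Kr c → HT rbar Kr →
  ∀ (R : Type) [CommRing R] [Algebra (WittVector 2 (ZMod 2)) R] (redR : R →+* ZMod 2) (ru : G →* GL (Fin 3) R),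
    IsUniv (p := 2) rbar R redR ru → 2 ≤ ringKrullDim (R ⧸ Ideal.span {(2 : R)})

def J_ABS : Prop := S_RT → S_ABS

end Pool.Agent.Q5.MZ
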