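import Pool.Agent.Q5.MZ.Stm4

/-!
# Project MZ (helper5), part F: the bridge between the embedding problems and the deformation ring

`S438` the set of the primes `2, 3, 73` of `ℚ`, `Q_S = maxUnram ℚ S438`, `G = GS ℚ S438`, `K` the field of degree 21
(`KData`, `Stm3.lean`), embedded in `Q_S` by `κ`.
-/

set_option autoImplicit false
set_option linter.unusedSectionVars false

namespace Pool.Agent.Q5.MZ

open NumberField IsDedekindDomain Module
open Pool.Agent.Q92.AR (Dv prin Unramified)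

/-- the primes dividing `438 = 2 · 3 · 73` -/
def S438 : Set (HeightOneSpectrum (𝓞 ℚ)) := {v | (438 : 𝓞 ℚ) ∈ v.asIdeal}

/-- the field `ℚ_S` -/
abbrev QS : Type := maxUnram ℚ S438

/-- `E` is a `2`-extension of `K`, unramified outside `2`, Galois over `ℚ`, embedded in `ℚ_S` by `ι` over `κ` -/
structure Fam (K : Type) [Field K] [NumberField K] (κ : K →ₐ[ℚ] QS) (E : Type) [Field E] [NumberField E] [Algebra K E]
    (ι : E →ₐ[ℚ] QS) : Prop where
  gal : IsGalois ℚ E
  two : TwoPow K E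
  unr : TwoUnram K E
  comp : ∀ a : K, ι (algebraMap K E a) = κ a

/-- the automorphisms of `ℚ_S` which are trivial on all fields of the family -/
def Kr (K : Type) [Field K] [NumberField K] (κ : K →ₐ[ℚ] QS) : Subgroup (GS ℚ S438) where
  carrier := {g | ∀ (E : Type) (_ : Field E) (_ : NumberField E) (_ : Algebra K E) (ι : E →ₐ[ℚ] QS),
    Fam K κ E ι → ∀ x : E, g (ι x) = ι x}
  one_mem' := fun _ _ _ _ _ _ _ => rfl
  mul_mem' := by
    intro a b ha hb E i1 i2 i3 ι h x
    show a (b (ι x)) = ι x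
    rw [hb E i1 i2 i3 ι h x, ha E i1 i2 i3 ι h x]
  inv_mem' := by
    intro a ha E i1 i2 i3 ι h x
    show a⁻¹ (ι x) = ι x
    have h1 := ha E i1 i2 i3 ι h x
    calc a⁻¹ (ι x) = a⁻¹ (a (ι x)) := by rw [h1]
      _ = ι x := by
        show (a⁻¹ * a) (ι x) = ι x
        rw [inv_mul_cancel]; rfl

/-- `ρ̄` is the representation `r` of `Gal(K/ℚ)` composed with the restriction to `κ(K)` -/
def IsRbar {K : Type} [Field K] [NumberField K] (r : (K ≃ₐ[ℚ] K) →* GL (Fin 3) (ZMod 2)) (κ : K →ₐ[ℚ] QS)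
    (rbar : GS ℚ S438 →* GL (Fin 3) (ZMod 2)) : Prop :=
  ∀ (g : GS ℚ S438) (s : K ≃ₐ[ℚ] K), (∀ x, κ (s x) = g (κ x)) → rbar g = r s

/-- JOB MZ-QG. `F_S/F` is a Galois extension.
Proof.  `F_S` is generated by the images of the `ι : E → AlgebraicClosure F`, `E` unramified outside `S`; for every
`F`-automorphism `σ` of the algebraic closure `σ ∘ ι` is another embedding of the same `E`, so `σ F_S = F_S`: normal
(`IntermediateField.normal_iff_forall_map_le` or similar).  Separable: characteristic 0. -/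
def S_QG : Prop := ∀ (F : Type) [Field F] [NumberField F] (S : Set (HeightOneSpectrum (𝓞 F))), IsGalois F (maxUnram F S)

/-- JOB MZ-QR. Restriction to a Galois subfield.
Proof.  The image of `ι` is a finite Galois subextension of `Q_S/ℚ` (normal, so stable under all automorphisms); restriction
(`AlgEquiv.restrictNormalHom` for the intermediate field, or for `E` with the `E`-algebra structure of `Q_S` given by `ι`) is
surjective, as `Q_S/ℚ` is normal (`AlgEquiv.restrictNormalHom_surjective`), and its kernel is the fixing subgroup of a finite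
extension, open in the Krull topology. -/
def S_QR : Prop := ∀ (E : Type) [Field E] [NumberField E] [IsGalois ℚ E] (ι : E →ₐ[ℚ] QS),
  ∃ res : GS ℚ S438 →* (E ≃ₐ[ℚ] E), Function.Surjective res ∧ IsOpen ((res.ker : Subgroup (GS ℚ S438)) : Set (GS ℚ S438)) ∧
    ∀ g x, ι (res g x) = g (ι x)

def J_QR : Prop := S_QG → S_QR

/-- JOB MZ-QE. Fields of the family can be embedded in `ℚ_S`.
Proof.  `E'/ℚ` is unramified outside `S438`: let `v ∤ 438` be a prime of `ℚ`; all primes of `K` above `v` are unramified in `E'`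
(they do not contain `2`), `v` is unramified in `K` (`KData.unr`), and ramification indices are multiplicative
(`S_FR` of the library, `Pool.Agent.Q225.AR.fr`, or directly with inertia groups).  The algebraic closure of `ℚ` is an
`E`-algebra through `ι`; there is an `E`-homomorphism of `E'` into it (`IsAlgClosed.lift`), and its image is contained in `Q_S` by
the definition of `maxUnram`. -/
def S_QE : Prop := ∀ (K : Type) [Field K] [NumberField K] (r : (K ≃ₐ[ℚ] K) →* GL (Fin 3) (ZMod 2)), KData K r →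
  ∀ (E E' : Type) [Field E] [NumberField E] [Field E'] [NumberField E'] [Algebra K E] [Algebra K E'] [Algebra E E']
    [IsScalarTower K E E'] (ι : E →ₐ[ℚ] QS), IsGalois ℚ E' → TwoPow K E' → TwoUnram K E' →
    ∃ ι' : E' →ₐ[ℚ] QS, ∀ x : E, ι' (algebraMap E E' x) = ι x

/-- JOB MZ-QK. `K` itself can be embedded in `ℚ_S`.
Proof.  `KData.unr` and the definition of `maxUnram`; any embedding of `K` in the algebraic closure. -/
def S_QK : Prop := ∀ (K : Type) [Field K] [NumberField K] (r : (K ≃ₐ[ℚ] K) →* GL (Fin 3) (ZMod 2)), KData K r →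
  Nonempty (K →ₐ[ℚ] QS)

/-- JOB MZ-QC. A homomorphism with open kernel, trivial on `Kr`, factors through a field of the family.
Proof.  For `(E, ι)` in the family let `U(E, ι) = {g : g is trivial on ι(E)}`, an open and closed subgroup of the compact
group `G` (`Q_S/ℚ` is Galois by `S_QG`: Mathlib has the instance that the Galois group is compact).  The intersection of all
`U(E, ι)` is `Kr`, contained in the open set `ker r1`.  The family is directed: for `(E1, ι1)`, `(E2, ι2)` let `E3` be the compositum of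
`ι1(E1)` and `ι2(E2)` in `Q_S` (an intermediate field of `Q_S/ℚ`, finite, Galois over `ℚ`, `K`-algebra through `κ`); `[E3 : K]` is a power
of two (`Gal(E3/K)` embeds in the product of the two groups) and `E3/K` is unramified outside `2` by `S_BC` (2).  `K` with `κ` itself
is in the family.  By compactness (finite intersections, directedness) one `U(E, ι)` is contained in `ker r1`. -/
def S_QC : Prop := ∀ (K : Type) [Field K] [NumberField K] (r : (K ≃ₐ[ℚ] K) →* GL (Fin 3) (ZMod 2)), KData K r →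
  ∀ (κ : K →ₐ[ℚ] QS) (H : Type) [Group H] (r1 : GS ℚ S438 →* H),
    IsOpen ((r1.ker : Subgroup (GS ℚ S438)) : Set (GS ℚ S438)) → (∀ g ∈ Kr K κ, r1 g = 1) →
    ∃ (E : Type) (_ : Field E) (_ : NumberField E) (_ : Algebra K E) (ι : E →ₐ[ℚ] QS), Fam K κ E ι ∧
      ∀ g : GS ℚ S438, (∀ x : E, g (ι x) = ι x) → r1 g = 1

def J_QC : Prop := S_BC → S_QG → S_QC

/-- JOB MZ-HL. Solvability of the small embedding problems.
Proof.  `A, B, q, rA, x` as in `HL`.  `S_QC` for `rA` gives `(E, ι)`, and `S_QR` gives `res : G → Gal(E/ℚ)`, surjective, with kernel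
contained in `ker rA`: `rA = rA' ∘ res`.  `X = {(y, s) ∈ GL₃(B) × Gal(E/ℚ) : q y = rA' s}`, a finite group, `π(y, s) = s`.
`π` is surjective: `q` is surjective and its kernel `I = {0, ε}` consists of nilpotent elements, so every matrix over `B` lifting an
invertible one is invertible.  `m_B ε = 0`: `b ε ∈ {0, ε}`, and `b ε = ε`, `b ∈ m_B`, would give `ε = 0` (`1 - b` is a unit);
`ε ∈ m_B` (`q` is a local map: `A` is nontrivial), so `ε² = 0`.  `ker π = {(1 + Y, 1) : Y` has entries in `I}`, and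
`(1 + Y)² = 1 + 2 Y + Y² = 1`.  If `(y', s') ∈ X` and `s'` is trivial on `K` then `rA' s'` reduces to `ρ̄ = 1`, so `y' ≡ 1 mod m_B` and
`y' Y = Y = Y y'`: the kernel is centralized.
Let `σ ∈ Gal(E/ℚ)` be a complex conjugation, `χ : E → ℂ`, `χ(σ x) = conj χ(x)`.  `φ ∘ ι` is another embedding, `E/ℚ` is Galois, so
`χ = φ ∘ ι ∘ τ` with `τ ∈ Gal(E/ℚ)`; `φ ι (τ σ x) = conj φ ι (τ x) = φ(c (ι (τ x))) = φ ι (res(c) τ x)`, so `σ = τ⁻¹ res(c) τ`.
Choose `(y, τ) ∈ X`; `(y, τ)⁻¹ (x, res c) (y, τ) ∈ X` lies over `σ` and its square is `1` (`c² = 1` follows from `φ(c x) = conj φ(x)`).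
`S_EM` gives `E'`, `ψ : Gal(E'/ℚ) → X`; `S_QE` gives `ι' : E' → Q_S` extending `ι`, so `(E', ι')` is in the family, and `res'` (`S_QR`).
`rB = (first component) ∘ ψ ∘ res'`: open kernel, trivial on `Kr` (`res'(g) = 1`), and `q (rB g) = rA' ((res' g) restricted to E)
= rA' (res g) = rA g`. -/
def S_HL : Prop := ∀ (K : Type) [Field K] [NumberField K] (r : (K ≃ₐ[ℚ] K) →* GL (Fin 3) (ZMod 2)), KData K r →
  ∀ (κ : K →ₐ[ℚ] QS) (rbar : GS ℚ S438 →* GL (Fin 3) (ZMod 2)) (φ : QS →+* ℂ) (c : GS ℚ S438), IsRbar r κ rbar →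
    (∀ x, φ (c x) = (starRingEnd ℂ) (φ x)) → HL rbar (Kr K κ) c

def J_HL : Prop := S_EM → S_QR → S_QE → S_QC → S_HL

/-- JOB MZ-UN. Units of the subfields of degree 7 and 3.
Proof.  `K` is totally real (`[K : ℚ]` is odd and `K/ℚ` Galois: a complex conjugation `s` has `s² = 1`, so `s = 1`).  `N` the fixed field
of `τ` (degree 7: `τ` has order 3 as `r` is injective and `matB` has order 3), `L` the fixed field of `σ` (degree 3).  Both are totally
real.  Dirichlet (Mathlib: `NumberField.Units`): `(𝓞 N)ˣ = {± 1} × ℤ^6`, `(𝓞 L)ˣ = {± 1} × ℤ²` (the torsion is `± 1`, real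
field).  `V_i` (`64` elements): the products of subsets of a basis of the free part for `N`; `W_j` (`8` elements): the products of
subsets of `{-1, u_1, u_2}` for `L`.  If `± V_i/V_j = s²` with `s ∈ K` take the norm to `N`: `(± V_i/V_j)³ = N(s)²`, so `± V_i/V_j` is a
square in `N`, of a unit; so `i = j`.  The same for `W` (norm to `L`: exponent 7). -/
def S_UN : Prop := ∀ (K : Type) [Field K] [NumberField K] (r : (K ≃ₐ[ℚ] K) →* GL (Fin 3) (ZMod 2)), KData K r →
  ∀ σ τ : K ≃ₐ[ℚ] K, ((r σ : GL (Fin 3) (ZMod 2)) : Matrix (Fin 3) (Fin 3) (ZMod 2)) = matA →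
    ((r τ : GL (Fin 3) (ZMod 2)) : Matrix (Fin 3) (Fin 3) (ZMod 2)) = matB →
    ∃ (V : Fin 64 → Kˣ) (W : Fin 8 → Kˣ), (∀ i, prin (V i) = 0) ∧ (∀ j, prin (W j) = 0) ∧
      (∀ i, τ (V i : K) = V i) ∧ (∀ j, σ (W j : K) = W j) ∧
      (∀ i i', i ≠ i' → ¬ IsSquare ((V i : K) / V i') ∧ ¬ IsSquare (-((V i : K) / V i'))) ∧
      ∀ j j', j ≠ j' → ¬ IsSquare ((W j : K) / W j')

/-- JOB MZ-TN. Many lifts to the dual numbers, finite level.
Proof.  `r` is injective and its image (order 21) is generated by `matA`, `matB`; `σ, τ` with `r σ = matA`, `r τ = matB`.  `V`, `W` from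
`S_UN`, `E` from `S_KU` (for `K`, `K`, `T = {V_i, W_j}`); as `E/ℚ` is Galois all conjugates `g u`, `u ∈ T`, `g ∈ G = Gal(K/ℚ)`, are squares in
`E`.  For `a ∈ H = Gal(E/K)` and `u ∈ Kˣ` a square in `E` let `⟨a, u⟩ ∈ 𝔽₂` be defined by `a(√u) = (-1)^⟨a,u⟩ √u`; additive in `a` and in
`u`, and `⟨h a h⁻¹, u⟩ = ⟨a, h⁻¹ u⟩` for `h ∈ Gal(E/ℚ)`.  `X0 = diag(0, 1, 1)` commutes with `matB`, `Y0 = !![1, 1, 0; 0, 0, 1; 1, 0, 0]` commutes
with `matA` (`decide`).  For `v = V_i`, `w = W_j` put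
`f_{v,w}(a) = ∑_{g ∈ G} (⟨a, g v⟩ r(g) X0 r(g)⁻¹ + ⟨a, g w⟩ r(g) Y0 r(g)⁻¹) ∈ M₃(𝔽₂)`, a homomorphism with
`f(h a h⁻¹) = r(h|K) f(a) r(h|K)⁻¹`.  By `S_GB` (`H` is normal of index 21, `V = M₃(𝔽₂)` with the action by conjugation) there is a
cocycle `α : Gal(E/ℚ) → M₃(𝔽₂)` extending `f`, and `ρ_{i,j}(h) = (1 + ε α(h)) r(h|K)` is a homomorphism to `GL₃(𝔽₂[ε])` lifting `r`.
Injectivity: suppose `f_{v,w} = f_{v',w'}` on `H`.  With `u = v/v'` (fixed by `τ`), `t = w/w'` (fixed by `σ`): `f_{u,t} = 0`.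
`G = {σ^i τ^j}`, so `f_{u,t}(a) = 3 ∑_{i<7} ⟨a, σ^i u⟩ A^i X0 A^{-i} + 7 ∑_{j<3} ⟨a, τ^j t⟩ B^j Y0 B^{-j}` (`G = {τ^j σ^i}` for the second
part).  By `decide` (`2^10` cases): `∑ n_i A^i X0 A^{-i} + ∑ m_j B^j Y0 B^{-j} = 0` implies `n_0 = .. = n_6` and `m_j = 0`.  So
`⟨a, t⟩ = 0` for all `a ∈ H`, `√t ∈ K`, so `w = w'`, `j = j'`.  And `⟨a, u/σ^i u⟩ = 0`, so `u/σ^i u` is a square in `K` for all `i`; the product
over `i < 7` is `u^7/∏ σ^i u`, and `∏ σ^i u` is fixed by `σ` and by `τ` (`τ σ τ⁻¹ = σ²`), so it is a rational number with trivial divisor,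
`± 1`.  So `± u` is a square in `K`, hence `i = i'`.  `64 · 8 = 512` (`finProdFinEquiv`). -/
def S_TN : Prop := ∀ (K : Type) [Field K] [NumberField K] [IsGalois ℚ K] (r : (K ≃ₐ[ℚ] K) →* GL (Fin 3) (ZMod 2)),
  KData K r → ∃ (E : Type) (_ : Field E) (_ : NumberField E) (_ : Algebra K E), IsGalois ℚ E ∧ TwoPow K E ∧
    TwoUnram K E ∧ ∃ ρ : Fin 512 → ((E ≃ₐ[ℚ] E) →* GL (Fin 3) (DualNumber (ZMod 2))),
      (∀ i g, Matrix.GeneralLinearGroup.map dfst (ρ i g) = r (AlgEquiv.restrictNormal g K)) ∧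
      ∀ i j, i ≠ j → ∃ g : E ≃ₐ[ℚ] E, (∀ a : K, g (algebraMap K E a) = algebraMap K E a) ∧ ρ i g ≠ ρ j g

def J_TN : Prop := S_KU → S_GB → S_UN → S_TN

/-- JOB MZ-HT. Many lifts to the dual numbers.
Proof.  `S_TN`, `ι : E → Q_S` from `S_QE` (applied to `K`, `κ`, and `E`), `res` from `S_QR`, `r i = ρ i ∘ res`.  For the last property: the
element `g` of `Gal(E/ℚ)` is `res g'`, and `ρ̄(g') = r(1) = 1`. -/
def S_HT : Prop := ∀ (K : Type) [Field K] [NumberField K] (r : (K ≃ₐ[ℚ] K) →* GL (Fin 3) (ZMod 2)), KData K r →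
  ∀ (κ : K →ₐ[ℚ] QS) (rbar : GS ℚ S438 →* GL (Fin 3) (ZMod 2)), IsRbar r κ rbar → HT rbar (Kr K κ)

def J_HT : Prop := S_TN → S_QE → S_QR → S_HT

/-- JOB MZ-DE. The representation `ρ̄`, its complex conjugation and the number `δ`.
Proof.  `ρ̄ = r ∘ res`, `res` from `S_QR` for `K`, `κ`.  `φ : QS → ℂ` given: `conj ∘ φ` is another embedding of the Galois extension `Q_S/ℚ`
(`S_QG`), so there is `c ∈ G` with `φ(c x) = conj φ(x)`.  Every element of `decInf φ` has square `1` (its square is trivial: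
`φ(g g x) = φ(x)`), so its image in `Gal(K/ℚ)`, a group of order 21, is trivial, and `ρ̄ = 1` on `decInf φ`: `adInv` is the space of all
trace zero matrices, of dimension 8 (trace is surjective, `9 - 1`), `ℚ` has one infinite place, real: `δ = 1 + 0 + 8 · 1 - 8 = 1`.
Absolutely irreducible: over any field of characteristic 2 the algebra generated by `matA`, `matB` is the full
matrix algebra (write the 9 elementary matrices as sums of products of `matA`, `matB`), and a nonzero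
subspace stable under all matrices is everything. -/
def S_DE : Prop := ∀ (K : Type) [Field K] [NumberField K] (r : (K ≃ₐ[ℚ] K) →* GL (Fin 3) (ZMod 2)), KData K r →
  ∀ κ : K →ₐ[ℚ] QS, ∃ rbar : GS ℚ S438 →* GL (Fin 3) (ZMod 2), IsRbar r κ rbar ∧
    IsOpen ((rbar.ker : Subgroup (GS ℚ S438)) : Set (GS ℚ S438)) ∧ AbsIrr rbar ∧ (∀ g ∈ Kr K κ, rbar g = 1) ∧
    (∀ φ : QS →+* ℂ, ∃ c : GS ℚ S438, (∀ x, φ (c x) = (starRingEnd ℂ) (φ x)) ∧ c ^ 2 = 1 ∧ rbar c = 1) ∧
    ∀ φ : InfinitePlace ℚ → (QS →+* ℂ), IsEmb φ → delta rbar φ = 1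

def J_DE : Prop := S_QG → S_QR → S_DE

/-- JOB MZ-SF. The set `S438` and the embeddings.
Proof.  Finitely many primes contain a nonzero element of a Dedekind domain.  `2 ∈ v` implies `438 ∈ v`.  `Q_S` is algebraic over `ℚ`,
so it has an embedding in `ℂ`; all infinite places of `ℚ` are equal. -/
def S_SF : Prop := S438.Finite ∧ (∀ v : HeightOneSpectrum (𝓞 ℚ), (2 : 𝓞 ℚ) ∈ v.asIdeal → v ∈ S438) ∧
  ∃ φ : InfinitePlace ℚ → (QS →+* ℂ), IsEmb φ

end Pool.Agent.Q5.MZ
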